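import Pool.Agent.MRE.Win
import Pool.Agent.MR.ZFinal

set_option autoImplicit false

/-!
# Products symmetric around a point: for almost all centres `Ω mod q` is not constant
-/

open Finset

namespace Pool.Agent.MRE

open Pool.Agent.MR

/-- number of elements of the class `1` in a window. -/
theorem count_class' (c W H : ℕ) (hW : 0 < W) (hH : 2 * W ≤ H) :
    (H : ℝ) / (2 * W) ≤ (((Ico c (c + H)).filter (fun n => n ≡ 1 [MOD W])).card : ℝ) := by
  -- injection of `range (H / W)`
  have hWr : (0 : ℝ) < W := by exact_mod_cast hW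
  have key : ∀ m : ℕ, m ≤ ((Ico c (c + m * W)).filter (fun n => n ≡ 1 [MOD W])).card := by
    intro m
    induction m with
    | zero => simp
    | succ m ih =>
      have h1 : (Ico c (c + (m + 1) * W)).filter (fun n => n ≡ 1 [MOD W])
          = (Ico c (c + m * W)).filter (fun n => n ≡ 1 [MOD W]) ∪
            (Ico (c + m * W) (c + m * W + W)).filter (fun n => n ≡ 1 [MOD W]) := by
        rw [← filter_union, Ico_union_Ico_eq_Ico (by omega) (by omega)]
        congr 2
        ring
      have hdj : Disjoint ((Ico c (c + m * W)).filter (fun n => n ≡ 1 [MOD W]))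
          ((Ico (c + m * W) (c + m * W + W)).filter (fun n => n ≡ 1 [MOD W])) := by
        apply disjoint_filter_filter
        exact Ico_disjoint_Ico_consecutive _ _ _
      rw [h1, card_union_of_disjoint hdj]
      have h2 : 1 ≤ ((Ico (c + m * W) (c + m * W + W)).filter (fun n => n ≡ 1 [MOD W])).card := by
        rw [Nat.one_le_iff_ne_zero, Nat.ne_zero_iff_zero_lt, card_pos]
        -- the element
        set d : ℕ := c + m * W with hd
        refine ⟨d + (1 + (W * d - d)) % W, ?_⟩
        rw [mem_filter, mem_Ico]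
        refine ⟨⟨by omega, ?_⟩, ?_⟩
        · have := Nat.mod_lt (1 + (W * d - d)) hW
          omega
        · have h3 : d + (1 + (W * d - d)) % W ≡ d + (1 + (W * d - d)) [MOD W] :=
            Nat.ModEq.add_left _ (Nat.mod_modEq _ _)
          refine h3.trans ?_
          have h4 : d ≤ W * d := Nat.le_mul_of_pos_left d hW
          have h5 : d + (1 + (W * d - d)) = 1 + W * d := by omega
          rw [h5]
          have h6 : 1 + W * d ≡ 1 + 0 [MOD W] := by
            apply Nat.ModEq.add_left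
            rw [Nat.modEq_zero_iff_dvd]
            exact dvd_mul_right _ _
          exact h6
      omega
  have h1 := key (H / W)
  have h2 : ((Ico c (c + H / W * W)).filter (fun n => n ≡ 1 [MOD W])).card ≤
      ((Ico c (c + H)).filter (fun n => n ≡ 1 [MOD W])).card := by
    apply card_le_card
    apply filter_subset_filter
    apply Ico_subset_Ico_right
    have := Nat.div_mul_le_self H W
    omega
  have h3 : ((H / W : ℕ) : ℝ) ≤ (((Ico c (c + H)).filter (fun n => n ≡ 1 [MOD W])).card : ℝ) := by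
    exact_mod_cast h1.trans h2
  refine le_trans ?_ h3
  have h4 : (H : ℝ) / W < ((H / W : ℕ) : ℝ) + 1 := by
    rw [div_lt_iff₀ hWr]
    have h5 : H < (H / W + 1) * W := by
      have := Nat.lt_mul_div_succ H hW
      rw [mul_comm] at this
      exact this
    exact_mod_cast h5
  have h6 : (2 : ℝ) ≤ (H : ℝ) / W := by
    rw [le_div_iff₀ hWr]
    exact_mod_cast hH
  have h7 : (H : ℝ) / (2 * W) = (H : ℝ) / W / 2 := by
    field_simp
  rw [h7]
  linarith

/-- the function `z^Ω`, `z = e(1/q)`. -/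
noncomputable def gz (q n : ℕ) : ℂ :=
  Complex.exp (2 * Real.pi * Complex.I / q) ^ (ArithmeticFunction.cardFactors n)

theorem gz_prim (q : ℕ) (hq : 2 ≤ q) :
    IsPrimitiveRoot (Complex.exp (2 * Real.pi * Complex.I / q)) q :=
  Complex.isPrimitiveRoot_exp q (by omega)

theorem gz_norm (q : ℕ) (hq : 2 ≤ q) (n : ℕ) : ‖gz q n‖ = 1 := by
  unfold gz
  rw [norm_pow, (gz_prim q hq).norm'_eq_one (by omega), one_pow]

theorem gz_ne (q : ℕ) (hq : 2 ≤ q) (n : ℕ) : gz q n ≠ 0 := by
  intro h
  have := gz_norm q hq n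
  rw [h, norm_zero] at this
  exact zero_ne_one this

theorem gz_pow (q : ℕ) (hq : 2 ≤ q) (n : ℕ) : gz q n ^ q = 1 := by
  unfold gz
  rw [← pow_mul, Nat.mul_comm, pow_mul, (gz_prim q hq).pow_eq_one, one_pow]

theorem gz_mul (q m n : ℕ) (hm : 0 < m) (hn : 0 < n) : gz q (m * n) = gz q m * gz q n := by
  unfold gz
  rw [ArithmeticFunction.cardFactors_mul hm.ne' hn.ne', pow_add]

theorem z_eq_iff (q : ℕ) (hq : 2 ≤ q) (m n : ℕ) : Complex.exp (2 * Real.pi * Complex.I / q) ^ m
    = Complex.exp (2 * Real.pi * Complex.I / q) ^ n ↔ m ≡ n [MOD q] := by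
  have hz := gz_prim q hq
  have hz0 : Complex.exp (2 * Real.pi * Complex.I / q) ≠ 0 := Complex.exp_ne_zero _
  have hζ : IsPrimitiveRoot (Units.mk0 _ hz0) q := by
    rw [← IsPrimitiveRoot.coe_units_iff]
    exact hz
  rw [hζ.eq_orderOf, ← pow_eq_pow_iff_modEq, ← hζ.eq_orderOf]
  constructor
  · intro h
    apply Units.ext
    push_cast
    exact h
  · intro h
    have := congrArg Units.val h
    push_cast at this
    exact this

theorem gz_eq_iff (q : ℕ) (hq : 2 ≤ q) (m n : ℕ) : gz q m = gz q n ↔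
    ArithmeticFunction.cardFactors m ≡ ArithmeticFunction.cardFactors n [MOD q] := by
  unfold gz
  exact z_eq_iff q hq _ _

theorem gz_CM (q : ℕ) (hq : 2 ≤ q) (W : ℕ) (χ : DirichletCharacter ℂ W) :
    CM (fun n => gz q n * χ n) :=
  CM_zch _ ((gz_prim q hq).norm'_eq_one (by omega)).le χ

theorem gz_PW (q : ℕ) (hq : 2 ≤ q) (W : ℕ) [NeZero W] (χ : DirichletCharacter ℂ W) :
    PW (fun n => gz q n * χ n) := by
  have hp := gz_prim q hq
  exact pw_of_fb _ (CM_zch _ (hp.norm'_eq_one (by omega)).le χ)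
    (FB_zch W χ q hq _ hp.pow_eq_one (hp.ne_one (by omega)))

/-- few windows on which `Ω mod q` is constant on the class `1` modulo `W`. -/
theorem const_count (q : ℕ) (hq : 2 ≤ q) (W : ℕ) (hW : 0 < W) (ε : ℝ) (hε : 0 < ε) :
    ∃ T0 : ℕ, ∀ T : ℕ, T0 ≤ T → ∃ N0 : ℝ, ∀ N : ℝ, N0 ≤ N → ∀ S : Finset ℕ,
      (∀ w ∈ S, N ≤ w ∧ (w : ℝ) ≤ 2 * N ∧ ∀ u ∈ Ico w (w + T), ∀ v ∈ Ico w (w + T),
        u ≡ 1 [MOD W] → v ≡ 1 [MOD W] → gz q u = gz q v) → (S.card : ℝ) ≤ ε * N := by
  classical
  have : NeZero W := ⟨hW.ne'⟩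
  have hWr : (0 : ℝ) < W := by exact_mod_cast hW
  obtain ⟨H0, hH0⟩ := mr_window (gz q) (fun n => (gz_norm q hq n).le) W hW
    (fun χ => gz_CM q hq W χ) (fun χ => gz_PW q hq W χ) (ε / (2 * W)) (by positivity)
  refine ⟨max H0 (2 * W), fun T hT => ?_⟩
  have hT1 : H0 ≤ T := (le_max_left _ _).trans hT
  have hT2 : 2 * W ≤ T := (le_max_right _ _).trans hT
  have hT0 : 0 < T := by omega
  have hTr : (0 : ℝ) < T := by exact_mod_cast hT0
  obtain ⟨N0, hN0⟩ := hH0 T hT1
  refine ⟨max N0 1, fun N hN S hS => ?_⟩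
  have hNa : N0 ≤ N := (le_max_left _ _).trans hN
  have hN1 : 1 ≤ N := (le_max_right _ _).trans hN
  have hmain := hN0 N hNa
  have hsub : S ⊆ Icc ⌈N⌉₊ ⌊2 * N⌋₊ := by
    intro w hw
    obtain ⟨h1, h2, -⟩ := hS w hw
    rw [mem_Icc]
    exact ⟨Nat.ceil_le.mpr h1, Nat.le_floor h2⟩
  have hlow : ∀ w ∈ S, (T : ℝ) / (2 * W) ≤
      ‖∑ n ∈ Ico w (w + T), (if n ≡ 1 [MOD W] then gz q n else 0)‖ := by
    intro w hw
    obtain ⟨-, -, h3⟩ := hS w hw
    rw [← sum_filter]
    have hcnt := count_class' w W T hW hT2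
    by_cases hex : ∃ v ∈ Ico w (w + T), v ≡ 1 [MOD W]
    · obtain ⟨v, hv, hv1⟩ := hex
      have h4 : ∑ n ∈ (Ico w (w + T)).filter (fun n => n ≡ 1 [MOD W]), gz q n
          = ∑ n ∈ (Ico w (w + T)).filter (fun n => n ≡ 1 [MOD W]), gz q v := by
        apply sum_congr rfl
        intro n hn
        rw [mem_filter] at hn
        exact h3 n hn.1 v hv hn.2 hv1
      rw [h4, sum_const, nsmul_eq_mul, norm_mul, gz_norm q hq, mul_one, Complex.norm_natCast]
      exact hcnt
    · have h5 : (Ico w (w + T)).filter (fun n => n ≡ 1 [MOD W]) = ∅ := by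
        rw [filter_eq_empty_iff]
        intro n hn hn1
        exact hex ⟨n, hn, hn1⟩
      rw [h5, card_empty] at hcnt
      have : 0 < (T : ℝ) / (2 * W) := by positivity
      push_cast at hcnt
      linarith
  have h6 : (S.card : ℝ) * ((T : ℝ) / (2 * W)) ≤ ε / (2 * W) * T * N := by
    refine le_trans ?_ hmain
    rw [← nsmul_eq_mul, ← sum_const]
    refine (sum_le_sum hlow).trans ?_
    exact sum_le_sum_of_subset_of_nonneg hsub (fun _ _ _ => norm_nonneg _)
  have h7 : (S.card : ℝ) * ((T : ℝ) / (2 * W)) ≤ (ε * N) * ((T : ℝ) / (2 * W)) := by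
    refine h6.trans (le_of_eq ?_)
    ring
  exact le_of_mul_le_mul_right h7 (by positivity)

/-- two constant symmetric windows with the same offset give a period. -/
theorem chain (q : ℕ) (hq : 2 ≤ q) (A B k T : ℕ) (hk : 0 < k) (hTB : T ≤ B) (c c' : ℂ)
    (h1 : ∀ t ≤ T, gz q (A + t) * gz q (B - t) = c)
    (h2 : ∀ t ≤ T, gz q (A + k + t) * gz q (B + k - t) = c') :
    ∀ u v : ℕ, B - T ≤ u → u ≤ v → v ≤ B → 2 * k * q ∣ v - u → gz q u = gz q v := by
  have hc : c ^ q = 1 := by
    rw [← h1 0 (Nat.zero_le _), mul_pow, gz_pow q hq, gz_pow q hq, one_mul]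
  have hc' : c' ^ q = 1 := by
    rw [← h2 0 (Nat.zero_le _), mul_pow, gz_pow q hq, gz_pow q hq, one_mul]
  have hc0 : c ≠ 0 := by
    intro h
    rw [h, zero_pow (by omega)] at hc
    exact zero_ne_one hc
  have step : ∀ y, B - T ≤ y → y + k ≤ B → gz q (y + 2 * k) = c' / c * gz q y := by
    intro y hy1 hy2
    have e1 := h1 (B - y) (by omega)
    have e2 := h2 (B - y - k) (by omega)
    rw [show B - (B - y) = y by omega] at e1
    rw [show A + k + (B - y - k) = A + (B - y) by omega,
      show B + k - (B - y - k) = y + 2 * k by omega] at e2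
    have h0 := gz_ne q hq (A + (B - y))
    rw [div_mul_eq_mul_div, eq_div_iff hc0, ← e1, ← e2]
    ring
  have iter : ∀ m y : ℕ, B - T ≤ y → y + 2 * k * m ≤ B + k → gz q (y + 2 * k * m) = (c' / c) ^ m * gz q y := by
    intro m
    induction m with
    | zero => intro y _ _; simp
    | succ m ih =>
      intro y hy1 hy2
      have e : y + 2 * k * (m + 1) = (y + 2 * k * m) + 2 * k := by ring
      rw [e] at hy2 ⊢
      rw [step (y + 2 * k * m) (by omega) (by omega), ih y hy1 (by omega), pow_succ]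
      ring
  intro u v hu huv hv hdvd
  obtain ⟨l, hl⟩ := hdvd
  have e : v = u + 2 * k * (q * l) := by
    have : 2 * k * q * l = 2 * k * (q * l) := by ring
    omega
  rw [e, iter (q * l) u hu (by rw [← e]; omega)]
  have : (c' / c) ^ (q * l) = 1 := by
    rw [pow_mul, div_pow, hc, hc', div_one, one_pow]
  rw [this, one_mul]

/-- total increase of a monotone function. -/
theorem mono_count (r : ℕ → ℕ) (hr : Monotone r) (a m K : ℕ) (S : Finset ℕ)
    (hS : ∀ n ∈ S, a ≤ n ∧ n < a + m ∧ r (n + K) ≠ r n) : S.card ≤ K * r (a + m + K) := by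
  have h1 : S.card ≤ ∑ n ∈ Ico a (a + m), (r (n + K) - r n) := by
    calc S.card = ∑ n ∈ S, 1 := by simp
      _ ≤ ∑ n ∈ S, (r (n + K) - r n) := by
          apply sum_le_sum
          intro n hn
          obtain ⟨-, -, h⟩ := hS n hn
          have := hr (Nat.le_add_right n K)
          omega
      _ ≤ _ := by
          apply sum_le_sum_of_subset
          intro n hn
          obtain ⟨h1, h2, -⟩ := hS n hn
          rw [mem_Ico]
          exact ⟨h1, h2⟩
  have h2 : ∑ n ∈ Ico a (a + m), (r (n + K) - r n) + ∑ n ∈ Ico a (a + m), r n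
      = ∑ n ∈ Ico a (a + m), r (n + K) := by
    rw [← sum_add_distrib]
    apply sum_congr rfl
    intro n _
    have := hr (Nat.le_add_right n K)
    omega
  have h3 : ∑ n ∈ Ico a (a + m), r (n + K) = ∑ n ∈ Ico (a + K) (a + m + K), r n := by
    rw [← sum_Ico_add' r a (a + m) K]
  have h4 : ∑ n ∈ Ico (a + K) (a + m + K), r n ≤ ∑ n ∈ Ico a (a + m + K), r n := by
    apply sum_le_sum_of_subset
    apply Ico_subset_Ico_left
    omega
  have h5 : ∑ n ∈ Ico a (a + m + K), r n = ∑ n ∈ Ico a (a + m), r n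
      + ∑ n ∈ Ico (a + m) (a + m + K), r n := by
    rw [sum_Ico_consecutive]
    · omega
    · omega
  have h6 : ∑ n ∈ Ico (a + m) (a + m + K), r n ≤ K * r (a + m + K) := by
    calc ∑ n ∈ Ico (a + m) (a + m + K), r n ≤ ∑ n ∈ Ico (a + m) (a + m + K), r (a + m + K) := by
          apply sum_le_sum
          intro n hn
          rw [mem_Ico] at hn
          exact hr hn.2.le
      _ = K * r (a + m + K) := by
          rw [sum_const, Nat.card_Ico, smul_eq_mul]
          congr 1
          omega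
  omega

/-- a set without small differences is sparse. -/
theorem sparse_count (E : Finset ℕ) (a b K : ℕ) (hE : ∀ n ∈ E, a ≤ n ∧ n ≤ b)
    (hgap : ∀ n ∈ E, ∀ k, 1 ≤ k → k ≤ K → n + k ∉ E) : (K + 1) * E.card ≤ b + K + 1 - a := by
  classical
  have hdisj : Set.PairwiseDisjoint (↑E : Set ℕ) (fun n => Ico n (n + (K + 1))) := by
    intro x hx y hy hxy
    have key : ∀ x ∈ E, ∀ y ∈ E, x < y → Disjoint (Ico x (x + (K + 1))) (Ico y (y + (K + 1))) := by
      intro x hx y hy hlt
      rw [disjoint_left]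
      intro z hz1 hz2
      rw [mem_Ico] at hz1 hz2
      have := hgap x hx (y - x) (by omega) (by omega)
      rw [show x + (y - x) = y by omega] at this
      exact this hy
    rcases lt_or_gt_of_ne hxy with h | h
    · exact key x hx y hy h
    · exact (key y hy x hx h).symm
  have h1 := card_biUnion hdisj
  have h2 : (E.biUnion (fun n => Ico n (n + (K + 1)))).card ≤ (Ico a (b + K + 1)).card := by
    apply card_le_card
    intro z hz
    rw [mem_biUnion] at hz
    obtain ⟨n, hn, hz⟩ := hz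
    rw [mem_Ico] at hz ⊢
    have := hE n hn
    omega
  rw [h1] at h2
  simp only [Nat.card_Ico, add_tsub_cancel_left, sum_const, smul_eq_mul] at h2
  rw [mul_comm]
  exact h2

/-- Key: for almost all `n` the products `(n - r + t)(n + r + j - t)`, `t ≤ T`, do not have
`Ω mod q` constant. -/
theorem key (q : ℕ) (hq : 2 ≤ q) (η : ℝ) (hη : 0 < η) :
    ∃ T0 : ℕ, ∀ T : ℕ, T0 ≤ T → ∃ κ : ℝ, 0 < κ ∧ ∃ N0 : ℝ, ∀ N : ℝ, N0 ≤ N →
      ∀ (r : ℕ → ℕ) (j : ℕ), j ≤ 2 → Monotone r → (r ⌊3 * N⌋₊ : ℝ) ≤ κ * N →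
      ∀ S : Finset ℕ, (∀ n ∈ S, N ≤ n ∧ (n : ℝ) ≤ 2 * N ∧ ∃ c : ℕ, ∀ t ≤ T,
        ArithmeticFunction.cardFactors ((n - r n + t) * (n + r n + j - t)) ≡ c [MOD q]) →
      (S.card : ℝ) ≤ η * N := by
  classical
  set K : ℕ := ⌈4 / η⌉₊ with hK
  have hK4 : 4 / η ≤ K := Nat.le_ceil _
  have hK0 : 0 < K := by
    rw [hK]
    exact Nat.ceil_pos.mpr (by positivity)
  have hKr : (0 : ℝ) < K := by exact_mod_cast hK0
  set W : ℕ := 2 * q * K.factorial with hW
  have hW0 : 0 < W := by
    have := K.factorial_pos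
    positivity
  obtain ⟨T0, hT0⟩ := const_count q hq W hW0 (η / 16) (by positivity)
  refine ⟨T0, fun T hT => ?_⟩
  obtain ⟨N1, hN1⟩ := hT0 T hT
  refine ⟨min (η / (8 * K)) (1 / 4), by positivity,
    max (max (2 * N1) (8 * T + 8)) (max (8 * K + 8) (32 / η)), fun N hN r j hj hr hrN S hS => ?_⟩
  have hNa : 2 * N1 ≤ N := (le_max_left _ _).trans ((le_max_left _ _).trans hN)
  have hNb : 8 * (T : ℝ) + 8 ≤ N := (le_max_right _ _).trans ((le_max_left _ _).trans hN)
  have hNc : 8 * (K : ℝ) + 8 ≤ N := (le_max_left _ _).trans ((le_max_right _ _).trans hN)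
  have hNd : 32 / η ≤ N := (le_max_right _ _).trans ((le_max_right _ _).trans hN)
  have hTr : (0 : ℝ) ≤ T := Nat.cast_nonneg T
  have hN0 : 0 < N := by linarith
  have hηN : 32 ≤ η * N := by
    rw [div_le_iff₀ hη] at hNd
    linarith
  have hrN1 : (r ⌊3 * N⌋₊ : ℝ) ≤ η / (8 * K) * N :=
    hrN.trans (mul_le_mul_of_nonneg_right (min_le_left _ _) hN0.le)
  have hrN2 : (r ⌊3 * N⌋₊ : ℝ) ≤ 1 / 4 * N :=
    hrN.trans (mul_le_mul_of_nonneg_right (min_le_right _ _) hN0.le)
  set a : ℕ := ⌈N⌉₊ with ha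
  set b : ℕ := ⌊2 * N⌋₊ with hb
  have haN : N ≤ a := Nat.le_ceil _
  have haN' : (a : ℝ) < N + 1 := Nat.ceil_lt_add_one hN0.le
  have hbN : (b : ℝ) ≤ 2 * N := Nat.floor_le (by positivity)
  have hbN' : 2 * N < b + 1 := Nat.lt_floor_add_one _
  have hab : a ≤ b := by
    have : (a : ℝ) < b + 1 := by linarith
    exact Nat.lt_succ_iff.mp (by exact_mod_cast this)
  have hSab : ∀ n ∈ S, a ≤ n ∧ n ≤ b := by
    intro n hn
    obtain ⟨h1, h2, -⟩ := hS n hn
    exact ⟨Nat.ceil_le.mpr h1, Nat.le_floor h2⟩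
  have hb3 : b + 1 + K ≤ ⌊3 * N⌋₊ := by
    apply Nat.le_floor
    push_cast
    linarith
  have hrb : ∀ n, n ≤ b + 1 + K → (r n : ℝ) ≤ 1 / 4 * N := by
    intro n hn
    have : r n ≤ r ⌊3 * N⌋₊ := hr (hn.trans hb3)
    exact le_trans (by exact_mod_cast this) hrN2
  set S1 : Finset ℕ := S.filter (fun n => r (n + K) = r n) with hS1
  set S2 : Finset ℕ := S1.filter (fun n => ∃ k, 1 ≤ k ∧ k ≤ K ∧ n + k ∈ S) with hS2
  have hc1 : ((S \ S1).card : ℝ) ≤ η / 8 * N := by
    have h1 := mono_count r hr a (b + 1 - a) K (S \ S1) (by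
      intro n hn
      rw [mem_sdiff, hS1, mem_filter, not_and] at hn
      have := hSab n hn.1
      exact ⟨this.1, by omega, hn.2 hn.1⟩)
    rw [show a + (b + 1 - a) + K = b + 1 + K by omega] at h1
    have h2 : r (b + 1 + K) ≤ r ⌊3 * N⌋₊ := hr hb3
    have h3 : ((S \ S1).card : ℝ) ≤ K * (r ⌊3 * N⌋₊ : ℝ) := by
      exact_mod_cast h1.trans (Nat.mul_le_mul_left K h2)
    have h4 : (K : ℝ) * (r ⌊3 * N⌋₊ : ℝ) ≤ K * (η / (8 * K) * N) := by gcongr
    have h5 : (K : ℝ) * (η / (8 * K) * N) = η / 8 * N := by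
      field_simp
    linarith
  have hc2 : ((S1 \ S2).card : ℝ) ≤ η / 4 * N + η * N / 16 := by
    have h1 := sparse_count (S1 \ S2) a b K (by
      intro n hn
      exact hSab n (mem_filter.mp (mem_sdiff.mp hn).1).1) (by
      intro n hn k hk1 hk2 hcon
      have hn' := mem_sdiff.mp hn
      apply hn'.2
      rw [hS2, mem_filter]
      exact ⟨hn'.1, k, hk1, hk2, (mem_filter.mp (mem_sdiff.mp hcon).1).1⟩)
    have h2 : ((K : ℝ) + 1) * ((S1 \ S2).card : ℝ) ≤ b + K + 1 - a := by
      have h3 : (K + 1) * (S1 \ S2).card + a ≤ b + K + 1 := by omega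
      have h4 : (((K + 1) * (S1 \ S2).card + a : ℕ) : ℝ) ≤ ((b + K + 1 : ℕ) : ℝ) := by
        exact_mod_cast h3
      push_cast at h4
      linarith
    have h5 : ((S1 \ S2).card : ℝ) ≤ (N + K + 1) / (K + 1) := by
      rw [le_div_iff₀ (by positivity)]
      linarith
    have h6 : (N + K + 1) / (K + 1) = N / (K + 1) + 1 := by
      field_simp
      ring
    have h7 : N / (K + 1) ≤ η / 4 * N := by
      rw [div_le_iff₀ (by positivity)]
      have : 4 ≤ η * K := by
        rw [div_le_iff₀ hη] at hK4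
        linarith
      have h8 : 0 < η * N := by positivity
      nlinarith
    linarith
  have hinj : ∀ x y : ℕ, T ≤ x → x < y → x + r x + j - T < y + r y + j - T := by
    intro x y hx hxy
    have := hr hxy.le
    omega
  have hTN : ∀ n ∈ S, T ≤ n := by
    intro n hn
    obtain ⟨h1, -, -⟩ := hS n hn
    have : (T : ℝ) ≤ n := by linarith
    exact_mod_cast this
  have hc3 : (S2.card : ℝ) ≤ η / 4 * N := by
    set φ : ℕ → ℕ := fun n => n + r n + j - T with hφ
    have hcard : (S2.image φ).card = S2.card := by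
      apply card_image_of_injOn
      intro x hx y hy hxy
      have hxS : x ∈ S := (mem_filter.mp (mem_filter.mp hx).1).1
      have hyS : y ∈ S := (mem_filter.mp (mem_filter.mp hy).1).1
      by_contra hne
      rcases lt_or_gt_of_ne hne with h | h
      · have := hinj x y (hTN x hxS) h
        simp only [hφ] at hxy
        omega
      · have := hinj y x (hTN y hyS) h
        simp only [hφ] at hxy
        omega
    -- properties
    have hprop : ∀ w ∈ S2.image φ, N / 2 ≤ w ∧ (w : ℝ) ≤ 4 * N ∧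
        ∀ u ∈ Ico w (w + T), ∀ v ∈ Ico w (w + T),
        u ≡ 1 [MOD W] → v ≡ 1 [MOD W] → gz q u = gz q v := by
      intro w hw
      rw [mem_image] at hw
      obtain ⟨n, hn, rfl⟩ := hw
      have hn' := mem_filter.mp hn
      obtain ⟨k, hk1, hk2, hkS⟩ := hn'.2
      have hn'' := mem_filter.mp hn'.1
      have hnS := hn''.1
      obtain ⟨g1, g2, c, hc⟩ := hS n hnS
      obtain ⟨-, -, c', hc'⟩ := hS (n + k) hkS
      have hnT := hTN n hnS
      have hnb := (hSab n hnS).2
      have hrk : r (n + k) = r n := by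
        have e1 := hr (Nat.le_add_right n k)
        have e2 := hr (show n + k ≤ n + K by omega)
        have e3 := hn''.2
        omega
      have hrn := hrb n (by omega)
      have hrnn : (r n : ℝ) + T + 1 ≤ n := by linarith
      have hrnn' : r n + T + 1 ≤ n := by exact_mod_cast hrnn
      have hcast : ((φ n : ℕ) : ℝ) = n + r n + j - T := by
        simp only [hφ]
        rw [Nat.cast_sub (by omega)]
        push_cast
        ring
      have hjr : (j : ℝ) ≤ 2 := by exact_mod_cast hj
      have hj0 : (0 : ℝ) ≤ j := Nat.cast_nonneg j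
      have hr0 : (0 : ℝ) ≤ r n := Nat.cast_nonneg _
      refine ⟨?_, ?_, ?_⟩
      · rw [hcast]
        linarith
      · rw [hcast]
        linarith
      · have hch := chain q hq (n - r n) (n + r n + j) k T (by omega) (by omega)
          (Complex.exp (2 * Real.pi * Complex.I / q) ^ c) (Complex.exp (2 * Real.pi * Complex.I / q) ^ c')
          (by
            intro t ht
            rw [← gz_mul q _ _ (by omega) (by omega)]
            unfold gz
            rw [z_eq_iff q hq]
            exact hc t ht)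
          (by
            intro t ht
            rw [← gz_mul q _ _ (by omega) (by omega)]
            unfold gz
            rw [z_eq_iff q hq]
            have := hc' t ht
            rw [hrk] at this
            rw [show n - r n + k + t = n + k - r n + t by omega,
              show n + r n + j + k - t = n + k + r n + j - t by omega]
            exact this)
        have hkW : 2 * k * q ∣ W := by
          have h1 : k ∣ K.factorial := Nat.dvd_factorial (by omega) hk2
          rw [hW, show 2 * k * q = 2 * q * k by ring]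
          exact Nat.mul_dvd_mul_left _ h1
        have hcase : ∀ u ∈ Ico (φ n) (φ n + T), ∀ v ∈ Ico (φ n) (φ n + T), u ≤ v →
            u ≡ 1 [MOD W] → v ≡ 1 [MOD W] → gz q u = gz q v := by
          intro u hu v hv huv hu1 hv1
          rw [mem_Ico] at hu hv
          simp only [hφ] at hu hv
          apply hch u v (by omega) huv (by omega)
          refine hkW.trans ?_
          exact (Nat.modEq_iff_dvd' huv).mp (hu1.trans hv1.symm)
        intro u hu v hv hu1 hv1
        rcases le_total u v with h | h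
        · exact hcase u hu v hv h hu1 hv1
        · exact (hcase v hv u hu h hv1 hu1).symm
    set I := S2.image φ with hI
    have hcA := hN1 (N / 2) (by linarith) (I.filter (fun w : ℕ => (w : ℝ) ≤ N)) (by
      intro w hw
      rw [mem_filter] at hw
      obtain ⟨p1, p2, p3⟩ := hprop w hw.1
      exact ⟨p1, by linarith [hw.2], p3⟩)
    have hcB := hN1 N (by linarith) (I.filter (fun w : ℕ => N ≤ (w : ℝ) ∧ (w : ℝ) ≤ 2 * N)) (by
      intro w hw
      rw [mem_filter] at hw
      obtain ⟨p1, p2, p3⟩ := hprop w hw.1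
      exact ⟨hw.2.1, hw.2.2, p3⟩)
    have hcC := hN1 (2 * N) (by linarith) (I.filter (fun w : ℕ => 2 * N ≤ (w : ℝ))) (by
      intro w hw
      rw [mem_filter] at hw
      obtain ⟨p1, p2, p3⟩ := hprop w hw.1
      exact ⟨hw.2, by linarith, p3⟩)
    have hcov : I ⊆ (I.filter (fun w : ℕ => (w : ℝ) ≤ N) ∪
        I.filter (fun w : ℕ => N ≤ (w : ℝ) ∧ (w : ℝ) ≤ 2 * N)) ∪ I.filter (fun w : ℕ => 2 * N ≤ (w : ℝ)) := by
      intro w hw
      simp only [mem_union, mem_filter]
      rcases le_total (w : ℝ) N with h | h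
      · left; left; exact ⟨hw, h⟩
      · rcases le_total (w : ℝ) (2 * N) with h' | h'
        · left; right; exact ⟨hw, h, h'⟩
        · right; exact ⟨hw, h'⟩
    have hle := (card_le_card hcov).trans ((card_union_le _ _).trans
      (Nat.add_le_add_right (card_union_le _ _) _))
    have hle' : (I.card : ℝ) ≤ ((I.filter (fun w : ℕ => (w : ℝ) ≤ N)).card : ℝ) +
        ((I.filter (fun w : ℕ => N ≤ (w : ℝ) ∧ (w : ℝ) ≤ 2 * N)).card : ℝ) +
        ((I.filter (fun w : ℕ => 2 * N ≤ (w : ℝ))).card : ℝ) := by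
      exact_mod_cast hle
    rw [hcard] at hle'
    have h8 : 0 < η * N := by positivity
    linarith
  have hsum : S.card = (S \ S1).card + (S1 \ S2).card + S2.card := by
    have e1 := card_sdiff_add_card_eq_card (filter_subset (fun n => r (n + K) = r n) S)
    have e2 := card_sdiff_add_card_eq_card
      (filter_subset (fun n => ∃ k, 1 ≤ k ∧ k ≤ K ∧ n + k ∈ S) S1)
    rw [← hS1] at e1
    rw [← hS2] at e2
    omega
  have hsum' : (S.card : ℝ) = ((S \ S1).card : ℝ) + ((S1 \ S2).card : ℝ) + (S2.card : ℝ) := by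
    exact_mod_cast hsum
  have h8 : 0 < η * N := by positivity
  linarith

end Pool.Agent.MRE
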