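import Pool.Agent.MRE.Key

set_option autoImplicit false

/-!
# Almost all `n`: windows of products `(n - u)(n + u + j)`
-/

open Finset

namespace Pool.Agent.MRE

/-- From dyadic intervals to initial segments. -/
theorem dyadic (P : ℕ → Prop) (η N1 : ℝ) (hη : 0 < η) (hN1 : 1 ≤ N1)
    (h : ∀ N : ℝ, N1 ≤ N → ∀ S : Finset ℕ, (∀ n ∈ S, N ≤ n ∧ (n : ℝ) ≤ 2 * N ∧ P n) →
      (S.card : ℝ) ≤ η * N) :
    ∃ N0 : ℕ, ∀ N : ℕ, N0 ≤ N → ∀ S : Finset ℕ, (∀ n ∈ S, 1 ≤ n ∧ n ≤ N ∧ P n) →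
      (S.card : ℝ) ≤ 3 * η * N := by
  classical
  have hind : ∀ k : ℕ, ∀ S : Finset ℕ, (∀ n ∈ S, N1 ≤ n ∧ (n : ℝ) ≤ 2 ^ k * N1 ∧ P n) →
      (S.card : ℝ) ≤ η * (2 ^ k * N1) := by
    intro k
    induction k with
    | zero =>
      intro S hS
      have := h N1 le_rfl S (by
        intro n hn
        obtain ⟨h1, h2, h3⟩ := hS n hn
        refine ⟨h1, ?_, h3⟩
        rw [pow_zero, one_mul] at h2
        linarith)
      rw [pow_zero, one_mul]
      exact this
    | succ k ih =>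
      intro S hS
      have h1 := ih (S.filter (fun n : ℕ => (n : ℝ) ≤ 2 ^ k * N1)) (by
        intro n hn
        rw [mem_filter] at hn
        obtain ⟨g1, g2, g3⟩ := hS n hn.1
        exact ⟨g1, hn.2, g3⟩)
      have hk : (1 : ℝ) ≤ 2 ^ k := one_le_pow₀ (by norm_num)
      have h2 := h (2 ^ k * N1) (by nlinarith) (S.filter (fun n : ℕ => ¬ (n : ℝ) ≤ 2 ^ k * N1)) (by
        intro n hn
        rw [mem_filter, not_le] at hn
        obtain ⟨g1, g2, g3⟩ := hS n hn.1
        refine ⟨hn.2.le, ?_, g3⟩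
        rw [pow_succ] at g2
        linarith)
      have h3 := card_filter_add_card_filter_not (s := S) (fun n : ℕ => (n : ℝ) ≤ 2 ^ k * N1)
      have h4 : (S.card : ℝ) = ((S.filter (fun n : ℕ => (n : ℝ) ≤ 2 ^ k * N1)).card : ℝ)
          + ((S.filter (fun n : ℕ => ¬ (n : ℝ) ≤ 2 ^ k * N1)).card : ℝ) := by
        exact_mod_cast h3.symm
      rw [h4, pow_succ]
      linarith
  refine ⟨⌈N1 / η⌉₊ + ⌈N1⌉₊, fun N hN S hS => ?_⟩
  have hNr : N1 / η ≤ N := by
    have h1 := Nat.le_ceil (N1 / η)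
    have h2 : ((⌈N1 / η⌉₊ : ℕ) : ℝ) ≤ N := by exact_mod_cast (by omega : ⌈N1 / η⌉₊ ≤ N)
    linarith
  have hNr2 : N1 ≤ N := by
    have h1 := Nat.le_ceil N1
    have h2 : ((⌈N1⌉₊ : ℕ) : ℝ) ≤ N := by exact_mod_cast (by omega : ⌈N1⌉₊ ≤ N)
    linarith
  have hN1p : 0 < N1 := by linarith
  -- choose k with 2^k N1 between N and 2N
  obtain ⟨k, hk1, hk2⟩ : ∃ k : ℕ, (N : ℝ) ≤ 2 ^ k * N1 ∧ 2 ^ k * N1 ≤ 2 * N := by
    have hex : ∃ k : ℕ, (N : ℝ) ≤ 2 ^ k * N1 := by
      obtain ⟨k, hk⟩ := pow_unbounded_of_one_lt (N : ℝ) (show (1 : ℝ) < 2 by norm_num)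
      refine ⟨k, hk.le.trans ?_⟩
      have : (0 : ℝ) < 2 ^ k := by positivity
      nlinarith
    refine ⟨Nat.find hex, Nat.find_spec hex, ?_⟩
    rcases Nat.eq_zero_or_pos (Nat.find hex) with h0 | h0
    · rw [h0, pow_zero, one_mul]
      linarith
    · have h1 := Nat.find_min hex (show Nat.find hex - 1 < Nat.find hex by omega)
      rw [not_le] at h1
      have h2 : Nat.find hex = (Nat.find hex - 1) + 1 := by omega
      rw [h2, pow_succ]
      linarith
  have h1 := hind k (S.filter (fun n : ℕ => N1 ≤ (n : ℝ))) (by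
    intro n hn
    rw [mem_filter] at hn
    obtain ⟨-, g2, g3⟩ := hS n hn.1
    refine ⟨hn.2, ?_, g3⟩
    exact le_trans (by exact_mod_cast g2) hk1)
  have h2 : ((S.filter (fun n : ℕ => ¬ N1 ≤ (n : ℝ))).card : ℝ) ≤ N1 := by
    have h3 : (S.filter (fun n : ℕ => ¬ N1 ≤ (n : ℝ))) ⊆ Icc 1 ⌊N1⌋₊ := by
      intro n hn
      rw [mem_filter, not_le] at hn
      rw [mem_Icc]
      exact ⟨(hS n hn.1).1, Nat.le_floor hn.2.le⟩
    have h4 := card_le_card h3
    rw [Nat.card_Icc, Nat.add_sub_cancel] at h4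
    have h5 := Nat.floor_le hN1p.le
    exact le_trans (by exact_mod_cast h4) h5
  have h3 := card_filter_add_card_filter_not (s := S) (fun n : ℕ => N1 ≤ (n : ℝ))
  have h4 : (S.card : ℝ) = ((S.filter (fun n : ℕ => N1 ≤ (n : ℝ))).card : ℝ)
      + ((S.filter (fun n : ℕ => ¬ N1 ≤ (n : ℝ))).card : ℝ) := by
    exact_mod_cast h3.symm
  rw [div_le_iff₀ hη] at hNr
  have h5 : η * (2 ^ k * N1) ≤ η * (2 * N) := mul_le_mul_of_nonneg_left hk2 hη.le
  rw [h4]
  linarith

/-- For almost all `n`: many `u` in a window with `Ω((n-u)(n+u+j)) ≢ a (mod q)`, for all `a`. -/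
theorem window_u (q : ℕ) (hq : 2 ≤ q) (η : ℝ) (hη : 0 < η) :
    ∃ T : ℕ, ∃ κ : ℝ, 0 < κ ∧ ∀ L : ℕ, 0 < L → ∃ N0 : ℝ, ∀ N : ℝ, N0 ≤ N →
      ∀ (v : ℕ → ℕ) (j : ℕ), j ≤ 2 → Monotone v → (v ⌊3 * N⌋₊ : ℝ) ≤ κ * N →
      ∀ S : Finset ℕ, (∀ n ∈ S, N ≤ n ∧ (n : ℝ) ≤ 2 * N ∧ ∃ a : ℕ,
        2 * ((Ico (v n) (v n + L * (T + 1))).filter (fun u =>
          ¬ ArithmeticFunction.cardFactors ((n - u) * (n + u + j)) ≡ a [MOD q])).card < L) →
      (S.card : ℝ) ≤ η * N := by
  classical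
  obtain ⟨T, hT⟩ := key q hq (η / 2) (by positivity)
  obtain ⟨κ, hκ, N1, hN1⟩ := hT T le_rfl
  refine ⟨T, min (κ / 2) (1 / 8), by positivity, fun L hL => ⟨max (max N1 1)
    (max (2 * (L * (T + 1) : ℝ) / κ) (8 * (L * (T + 1) : ℝ))), fun N hN v j hj hv hvN S hS => ?_⟩⟩
  have hNa : N1 ≤ N := (le_max_left _ _).trans ((le_max_left _ _).trans hN)
  have hNb : 1 ≤ N := (le_max_right _ _).trans ((le_max_left _ _).trans hN)
  have hNc : 2 * (L * (T + 1) : ℝ) / κ ≤ N := (le_max_left _ _).trans ((le_max_right _ _).trans hN)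
  have hNd : 8 * (L * (T + 1) : ℝ) ≤ N := (le_max_right _ _).trans ((le_max_right _ _).trans hN)
  have hN0 : 0 < N := by linarith
  have hLr : (0 : ℝ) < L := by exact_mod_cast hL
  have hvN1 : (v ⌊3 * N⌋₊ : ℝ) ≤ κ / 2 * N :=
    hvN.trans (mul_le_mul_of_nonneg_right (min_le_left _ _) hN0.le)
  have hvN2 : (v ⌊3 * N⌋₊ : ℝ) ≤ 1 / 8 * N :=
    hvN.trans (mul_le_mul_of_nonneg_right (min_le_right _ _) hN0.le)
  -- the blocks
  set bad : ℕ → ℕ → Prop := fun i n => ∃ c : ℕ, ∀ t ≤ T, ArithmeticFunction.cardFactors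
    ((n - (v n + T + i * (T + 1)) + t) * (n + (v n + T + i * (T + 1)) + j - t)) ≡ c [MOD q] with hbad
  have hcnt : ∀ i ∈ range L, ((S.filter (fun n => bad i n)).card : ℝ) ≤ η / 2 * N := by
    intro i hi
    rw [mem_range] at hi
    apply hN1 N hNa (fun n => v n + T + i * (T + 1)) j hj
    · intro x y hxy
      have := hv hxy
      simp only []
      omega
    · push_cast
      have h1 : T + i * (T + 1) ≤ L * (T + 1) := by nlinarith
      have h2 : (T : ℝ) + i * (T + 1) ≤ L * (T + 1) := by exact_mod_cast h1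
      have h3 : (L * (T + 1) : ℝ) ≤ κ / 2 * N := by
        rw [div_le_iff₀ hκ] at hNc
        linarith
      linarith
    · intro n hn
      rw [mem_filter] at hn
      obtain ⟨g1, g2, -⟩ := hS n hn.1
      exact ⟨g1, g2, hn.2⟩
  -- each n in S has at least L/2 bad blocks
  have hbadcard : ∀ n ∈ S, (L : ℝ) / 2 ≤ (((range L).filter (fun i => bad i n)).card : ℝ) := by
    intro n hn
    obtain ⟨g1, g2, a, ha⟩ := hS n hn
    set Q : Finset ℕ := (Ico (v n) (v n + L * (T + 1))).filter (fun u =>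
          ¬ ArithmeticFunction.cardFactors ((n - u) * (n + u + j)) ≡ a [MOD q]) with hQ
    have hn3 : n ≤ ⌊3 * N⌋₊ := by
      apply Nat.le_floor
      linarith
    have hvn : (v n : ℝ) + L * (T + 1) ≤ n := by
      have h1 : (v n : ℝ) ≤ v ⌊3 * N⌋₊ := by exact_mod_cast hv hn3
      linarith
    have hvn' : v n + L * (T + 1) ≤ n := by exact_mod_cast hvn
    -- good blocks inject in Q
    have hgood : ((range L).filter (fun i => ¬ bad i n)).card ≤ Q.card := by
      have hch : ∀ i ∈ (range L).filter (fun i => ¬ bad i n), ∃ t, t ≤ T ∧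
          (v n + i * (T + 1) + t) ∈ Q := by
        intro i hi
        rw [mem_filter, mem_range] at hi
        obtain ⟨hiL, hib⟩ := hi
        simp only [hbad] at hib
        push Not at hib
        obtain ⟨t, ht, hta⟩ := hib a
        refine ⟨T - t, by omega, ?_⟩
        have hiL' : (i + 1) * (T + 1) ≤ L * (T + 1) := Nat.mul_le_mul_right _ hiL
        have e0 : (i + 1) * (T + 1) = i * (T + 1) + T + 1 := by ring
        rw [hQ, mem_filter, mem_Ico]
        refine ⟨⟨by omega, by omega⟩, ?_⟩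
        rw [show n - (v n + i * (T + 1) + (T - t)) = n - (v n + T + i * (T + 1)) + t by omega,
          show n + (v n + i * (T + 1) + (T - t)) + j = n + (v n + T + i * (T + 1)) + j - t by omega]
        exact hta
      choose! t ht1 ht2 using hch
      apply card_le_card_of_injOn (fun i => v n + i * (T + 1) + t i)
      · intro i hi
        exact ht2 i hi
      · intro i hi i' hi' hii
        simp only at hii
        have h1 := ht1 i hi
        have h2 := ht1 i' hi'
        by_contra hne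
        rcases lt_or_gt_of_ne hne with hlt | hlt
        · have : (i + 1) * (T + 1) ≤ i' * (T + 1) := Nat.mul_le_mul_right _ hlt
          have e0 : (i + 1) * (T + 1) = i * (T + 1) + T + 1 := by ring
          omega
        · have : (i' + 1) * (T + 1) ≤ i * (T + 1) := Nat.mul_le_mul_right _ hlt
          have e0 : (i' + 1) * (T + 1) = i' * (T + 1) + T + 1 := by ring
          omega
    have h5 := card_filter_add_card_filter_not (s := range L) (fun i => bad i n)
    rw [card_range] at h5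
    have h6 : L ≤ 2 * ((range L).filter (fun i => bad i n)).card := by omega
    have h7 : (L : ℝ) ≤ 2 * (((range L).filter (fun i => bad i n)).card : ℝ) := by exact_mod_cast h6
    linarith
  -- double count
  have hdc : ∑ n ∈ S, (((range L).filter (fun i => bad i n)).card : ℝ)
      = ∑ i ∈ range L, ((S.filter (fun n => bad i n)).card : ℝ) := by
    have h1 : ∑ n ∈ S, ((range L).filter (fun i => bad i n)).card
        = ∑ i ∈ range L, (S.filter (fun n => bad i n)).card := by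
      simp only [card_filter]
      exact sum_comm
    exact_mod_cast h1
  have h1 : (S.card : ℝ) * (L / 2) ≤ ∑ n ∈ S, (((range L).filter (fun i => bad i n)).card : ℝ) := by
    rw [← nsmul_eq_mul, ← sum_const]
    exact sum_le_sum hbadcard
  have h2 : ∑ i ∈ range L, ((S.filter (fun n => bad i n)).card : ℝ) ≤ L * (η / 2 * N) := by
    have := sum_le_sum hcnt
    rw [sum_const, card_range, nsmul_eq_mul] at this
    exact this
  rw [hdc] at h1
  have h3 : (S.card : ℝ) * (L / 2) ≤ (η * N) * (L / 2) := by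
    calc (S.card : ℝ) * (L / 2) ≤ L * (η / 2 * N) := h1.trans h2
      _ = (η * N) * (L / 2) := by ring
  exact le_of_mul_le_mul_right h3 (by positivity)

end Pool.Agent.MRE
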