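import Pool.Agent.MRE.Ends

set_option autoImplicit false

/-!
# Right and left ends of the Oppermann intervals for almost all `n`
-/

open Finset

namespace Pool.Agent.MRE

/-- right ends: `(n² + jn - H, n² + jn)`. -/
theorem right_end (q : ℕ) (n j H U a : ℕ) (hU : (U + 1) * (U + 1 + j) ≤ H) (hUn : U + 1 ≤ n) :
    ((Ico 1 (1 + U)).filter (fun u =>
      ¬ ArithmeticFunction.cardFactors ((n - u) * (n + u + j)) ≡ a [MOD q])).card ≤
    Set.ncard {m : ℕ | (n : ℝ) ^ 2 + j * n - H < m ∧ (m : ℝ) < (n : ℝ) ^ 2 + j * n ∧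
      ¬ ArithmeticFunction.cardFactors m ≡ a [MOD q]} := by
  classical
  have hfin : Set.Finite {m : ℕ | (n : ℝ) ^ 2 + j * n - H < m ∧ (m : ℝ) < (n : ℝ) ^ 2 + j * n ∧
      ¬ ArithmeticFunction.cardFactors m ≡ a [MOD q]} := by
    apply Set.Finite.subset (Set.finite_Icc 0 (n ^ 2 + j * n))
    intro m hm
    obtain ⟨-, h2, -⟩ := hm
    refine ⟨Nat.zero_le _, ?_⟩
    have : (m : ℝ) < ((n ^ 2 + j * n : ℕ) : ℝ) := by push_cast; exact h2
    exact_mod_cast this.le
  rw [← Set.ncard_coe_finset]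
  apply Set.ncard_le_ncard_of_injOn (ht := hfin) (fun u => (n - u) * (n + u + j))
  · intro u hu
    rw [coe_filter, Set.mem_ofPred_eq, mem_Ico] at hu
    obtain ⟨⟨h1, h2⟩, h3⟩ := hu
    have hun : u ≤ n := by omega
    have hcast : (((n - u) * (n + u + j) : ℕ) : ℝ) = (n : ℝ) ^ 2 + j * n - u * (u + j) := by
      push_cast [Nat.cast_sub hun]
      ring
    have hu1 : (1 : ℝ) ≤ u := by exact_mod_cast h1
    have hj0 : (0 : ℝ) ≤ j := Nat.cast_nonneg j
    have hu2 : u * (u + j) < H := by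
      refine lt_of_lt_of_le ?_ hU
      nlinarith
    have hu3 : (u : ℝ) * (u + j) < H := by exact_mod_cast hu2
    refine ⟨?_, ?_, h3⟩
    · rw [hcast]
      linarith
    · rw [hcast]
      nlinarith
  · intro u hu u' hu' huu
    rw [coe_filter, Set.mem_ofPred_eq, mem_Ico] at hu hu'
    simp only at huu
    have e1 : (((n - u) * (n + u + j) : ℕ) : ℝ) = (n : ℝ) ^ 2 + j * n - u * (u + j) := by
      push_cast [Nat.cast_sub (by omega : u ≤ n)]
      ring
    have e2 : (((n - u') * (n + u' + j) : ℕ) : ℝ) = (n : ℝ) ^ 2 + j * n - u' * (u' + j) := by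
      push_cast [Nat.cast_sub (by omega : u' ≤ n)]
      ring
    rw [huu, e2] at e1
    have e3 : ((u : ℝ) - u') * (u + u' + j) = 0 := by linarith
    have hu1 : (1 : ℝ) ≤ u := by exact_mod_cast hu.1.1
    have hu1' : (1 : ℝ) ≤ u' := by exact_mod_cast hu'.1.1
    have hj0 : (0 : ℝ) ≤ j := Nat.cast_nonneg j
    rcases mul_eq_zero.mp e3 with h | h
    · have : (u : ℝ) = u' := by linarith
      exact_mod_cast this
    · linarith

/-- general position `(n² + αn, n² + αn + H √n)`. -/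
theorem left_end (q : ℕ) (n H v U a : ℕ) (α : ℝ) (hα1 : -1 ≤ α) (hα2 : α < 1) (hn : 1 ≤ n)
    (hUH : 3 * ((U : ℝ) + 1) < H) (hv1 : √((1 - α) * n) - 1 - U ≤ v)
    (hv2 : (v : ℝ) + U ≤ √((1 - α) * n)) (hvn : v + U + 1 ≤ n) :
    ((Ico v (v + U)).filter (fun u =>
      ¬ ArithmeticFunction.cardFactors ((n - u) * (n + u + 1)) ≡ a [MOD q])).card ≤
    Set.ncard {m : ℕ | (n : ℝ) ^ 2 + α * n < m ∧ (m : ℝ) < (n : ℝ) ^ 2 + α * n + H * √n ∧
      ¬ ArithmeticFunction.cardFactors m ≡ a [MOD q]} := by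
  classical
  have hnr : (1 : ℝ) ≤ n := by exact_mod_cast hn
  have hnr0 : (0 : ℝ) < n := by linarith
  set s : ℝ := √((1 - α) * n) with hs
  have hs2 : s ^ 2 = (1 - α) * n := by
    rw [hs, Real.sq_sqrt]
    have : 0 < 1 - α := by linarith
    positivity
  have hs0 : 0 < s := by
    rw [hs]
    apply Real.sqrt_pos.mpr
    have : 0 < 1 - α := by linarith
    positivity
  have hsn : s ≤ 3 / 2 * √n := by
    have h1 : 0 ≤ √(n : ℝ) := Real.sqrt_nonneg _
    have h2 : √(n : ℝ) ^ 2 = n := Real.sq_sqrt hnr0.le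
    have h3 : s ^ 2 ≤ (3 / 2 * √n) ^ 2 := by
      rw [hs2, mul_pow, h2]
      nlinarith
    exact (sq_le_sq₀ hs0.le (by positivity)).mp h3
  have hfin : Set.Finite {m : ℕ | (n : ℝ) ^ 2 + α * n < m ∧ (m : ℝ) < (n : ℝ) ^ 2 + α * n + H * √n ∧
      ¬ ArithmeticFunction.cardFactors m ≡ a [MOD q]} := by
    apply Set.Finite.subset (Set.finite_Icc 0 ⌈(n : ℝ) ^ 2 + α * n + H * √n⌉₊)
    intro m hm
    obtain ⟨-, h2, -⟩ := hm
    refine ⟨Nat.zero_le _, ?_⟩
    have := Nat.le_ceil ((n : ℝ) ^ 2 + α * n + H * √n)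
    have h3 : (m : ℝ) ≤ (⌈(n : ℝ) ^ 2 + α * n + H * √n⌉₊ : ℝ) := by linarith
    exact_mod_cast h3
  rw [← Set.ncard_coe_finset]
  apply Set.ncard_le_ncard_of_injOn (ht := hfin) (fun u => (n - u) * (n + u + 1))
  · intro u hu
    rw [coe_filter, Set.mem_ofPred_eq, mem_Ico] at hu
    obtain ⟨⟨h1, h2⟩, h3⟩ := hu
    have hun : u ≤ n := by omega
    have hcast : (((n - u) * (n + u + 1) : ℕ) : ℝ) = (n : ℝ) ^ 2 + n - u * (u + 1) := by
      push_cast [Nat.cast_sub hun]
      ring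
    have hu1 : (v : ℝ) ≤ u := by exact_mod_cast h1
    have hu2 : (u : ℝ) + 1 ≤ v + U := by exact_mod_cast h2
    have hu0 : (0 : ℝ) ≤ u := Nat.cast_nonneg u
    have hU0 : (0 : ℝ) ≤ U := Nat.cast_nonneg U
    have hus : (u : ℝ) + 1 ≤ s := hu2.trans hv2
    refine ⟨?_, ?_, h3⟩
    · rw [hcast]
      -- u(u+1) < s^2 = (1-α) n
      have : (u : ℝ) * (u + 1) < s ^ 2 := by nlinarith
      rw [hs2] at this
      linarith
    · rw [hcast]
      have h5 : s - 1 - U ≤ u := by linarith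
      have h6 : s ^ 2 - 2 * s * (1 + U) ≤ u * (u + 1) := by
        have h7 : s - (1 + U) ≤ u := by linarith
        rcases le_total 0 (s - (1 + U)) with h8 | h8
        · nlinarith
        · nlinarith
      have h9 : 2 * s * (1 + U) < H * √n := by
        have h10 : 0 < √(n : ℝ) := Real.sqrt_pos.mpr hnr0
        nlinarith
      rw [hs2] at h6
      linarith
  · intro u hu u' hu' huu
    rw [coe_filter, Set.mem_ofPred_eq, mem_Ico] at hu hu'
    simp only at huu
    have e1 : (((n - u) * (n + u + 1) : ℕ) : ℝ) = (n : ℝ) ^ 2 + n - u * (u + 1) := by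
      push_cast [Nat.cast_sub (by omega : u ≤ n)]
      ring
    have e2 : (((n - u') * (n + u' + 1) : ℕ) : ℝ) = (n : ℝ) ^ 2 + n - u' * (u' + 1) := by
      push_cast [Nat.cast_sub (by omega : u' ≤ n)]
      ring
    rw [huu, e2] at e1
    have e3 : ((u : ℝ) - u') * (u + u' + 1) = 0 := by linarith
    have hu1 : (0 : ℝ) ≤ u := Nat.cast_nonneg u
    have hu1' : (0 : ℝ) ≤ u' := Nat.cast_nonneg u'
    rcases mul_eq_zero.mp e3 with h | h
    · have : (u : ℝ) = u' := by linarith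
      exact_mod_cast this
    · linarith

/-- The main theorem. -/
theorem ends (q : ℕ) (hq : 2 ≤ q) (η : ℝ) (hη : 0 < η) :
    ∃ c : ℝ, 0 < c ∧ ∃ H0 : ℕ, ∀ H : ℕ, H0 ≤ H → ∀ α : ℝ, -1 ≤ α → α < 1 → ∃ N0 : ℕ, ∀ N : ℕ,
      N0 ≤ N → (Set.ncard {n : ℕ | 1 ≤ n ∧ n ≤ N ∧ ¬ ∀ a : ℕ,
        c * √H ≤ Set.ncard {m : ℕ | (n : ℝ) ^ 2 - H < m ∧ (m : ℝ) < (n : ℝ) ^ 2 ∧
          ¬ ArithmeticFunction.cardFactors m ≡ a [MOD q]} ∧
        c * √H ≤ Set.ncard {m : ℕ | (n : ℝ) ^ 2 + n - H < m ∧ (m : ℝ) < (n : ℝ) ^ 2 + n ∧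
          ¬ ArithmeticFunction.cardFactors m ≡ a [MOD q]} ∧
        c * H ≤ Set.ncard {m : ℕ | (n : ℝ) ^ 2 + α * n < m ∧
          (m : ℝ) < (n : ℝ) ^ 2 + α * n + H * √n ∧
          ¬ ArithmeticFunction.cardFactors m ≡ a [MOD q]}} : ℝ) ≤ η * N := by
  classical
  obtain ⟨T, κ, hκ, hT⟩ := window_u q hq (η / 9) (by positivity)
  have hT0 : (0 : ℝ) < T + 1 := by positivity
  refine ⟨1 / (64 * (T + 1)), by positivity, (16 * (T + 1)) ^ 2, fun H hH α hα1 hα2 => ?_⟩
  have hT1 : 1 ≤ T + 1 := by omega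
  have hH256 : 256 * ((T + 1) * (T + 1)) ≤ H := by
    refine le_trans (le_of_eq ?_) hH
    ring
  have hHT : 16 * (T + 1) ≤ H := by nlinarith
  have hHr : (16 * (T + 1 : ℝ)) ^ 2 ≤ H := by exact_mod_cast hH
  have hsH : 16 * (T + 1 : ℝ) ≤ √H := by
    apply Real.le_sqrt_of_sq_le hHr
  have hsH2 : √(H : ℝ) ^ 2 = H := Real.sq_sqrt (Nat.cast_nonneg H)
  have hH0 : (0 : ℝ) < H := by
    have : (0 : ℝ) < (16 * (T + 1 : ℝ)) ^ 2 := by positivity
    linarith
  -- right ends
  set L1 : ℕ := ⌊√(H : ℝ) / (4 * (T + 1))⌋₊ with hL1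
  have hL1a : (L1 : ℝ) ≤ √(H : ℝ) / (4 * (T + 1)) := Nat.floor_le (by positivity)
  have hL1b : √(H : ℝ) / (4 * (T + 1)) < L1 + 1 := Nat.lt_floor_add_one _
  have hL1c : 4 ≤ √(H : ℝ) / (4 * (T + 1)) := by
    rw [le_div_iff₀ (by positivity)]
    linarith
  have hL1p : 0 < L1 := by
    have : (0 : ℝ) < L1 := by linarith
    exact_mod_cast this
  have hL1d : √(H : ℝ) / (8 * (T + 1)) ≤ L1 := by
    have e : √(H : ℝ) / (8 * (T + 1)) = √(H : ℝ) / (4 * (T + 1)) / 2 := by field_simp; ring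
    rw [e]
    linarith
  -- left ends
  set L2 : ℕ := ⌊(H : ℝ) / (8 * (T + 1))⌋₊ with hL2
  have hL2a : (L2 : ℝ) ≤ (H : ℝ) / (8 * (T + 1)) := Nat.floor_le (by positivity)
  have hL2b : (H : ℝ) / (8 * (T + 1)) < L2 + 1 := Nat.lt_floor_add_one _
  have hHT' : 16 * (T + 1 : ℝ) ≤ H := by exact_mod_cast hHT
  have hL2c : 2 ≤ (H : ℝ) / (8 * (T + 1)) := by
    rw [le_div_iff₀ (by positivity)]
    linarith
  have hL2p : 0 < L2 := by
    have : (0 : ℝ) < L2 := by linarith
    exact_mod_cast this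
  have hL2d : (H : ℝ) / (16 * (T + 1)) ≤ L2 := by
    have e : (H : ℝ) / (16 * (T + 1)) = (H : ℝ) / (8 * (T + 1)) / 2 := by field_simp; ring
    rw [e]
    linarith
  obtain ⟨N1, hN1⟩ := hT L1 hL1p
  obtain ⟨N2, hN2⟩ := hT L2 hL2p
  set U1 : ℕ := L1 * (T + 1) with hU1
  set U2 : ℕ := L2 * (T + 1) with hU2
  -- dyadic statement
  set Pr : ℕ → Prop := fun n => 1 ≤ n ∧ ¬ ∀ a : ℕ,
        1 / (64 * (T + 1 : ℝ)) * √H ≤ Set.ncard {m : ℕ | (n : ℝ) ^ 2 - H < m ∧ (m : ℝ) < (n : ℝ) ^ 2 ∧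
          ¬ ArithmeticFunction.cardFactors m ≡ a [MOD q]} ∧
        1 / (64 * (T + 1 : ℝ)) * √H ≤ Set.ncard {m : ℕ | (n : ℝ) ^ 2 + n - H < m ∧ (m : ℝ) < (n : ℝ) ^ 2 + n ∧
          ¬ ArithmeticFunction.cardFactors m ≡ a [MOD q]} ∧
        1 / (64 * (T + 1 : ℝ)) * H ≤ Set.ncard {m : ℕ | (n : ℝ) ^ 2 + α * n < m ∧
          (m : ℝ) < (n : ℝ) ^ 2 + α * n + H * √n ∧
          ¬ ArithmeticFunction.cardFactors m ≡ a [MOD q]} with hPr
  set N3 : ℝ := max (max (max N1 N2) (max 1 (1 / κ)))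
    (max (6 / κ ^ 2) (max (16 * H + 16 : ℝ) ((2 * H / (1 - α) + 4) * (2 * H + 4)))) with hN3
  obtain ⟨N0, hN0⟩ := dyadic Pr (η / 3) N3 (by positivity) (by
    rw [hN3]
    exact (le_max_left _ _).trans ((le_max_right _ _).trans (le_max_left _ _))) (by
    intro N hN S hS
    have hNa : N1 ≤ N := (le_max_left _ _).trans ((le_max_left _ _).trans ((le_max_left _ _).trans hN))
    have hNb : N2 ≤ N := (le_max_right _ _).trans ((le_max_left _ _).trans ((le_max_left _ _).trans hN))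
    have hNc : 1 ≤ N := (le_max_left _ _).trans ((le_max_right _ _).trans ((le_max_left _ _).trans hN))
    have hNd : 1 / κ ≤ N := (le_max_right _ _).trans ((le_max_right _ _).trans ((le_max_left _ _).trans hN))
    have hNe : 6 / κ ^ 2 ≤ N := (le_max_left _ _).trans ((le_max_right _ _).trans hN)
    have hNf : 16 * H + 16 ≤ N :=
      (le_max_left _ _).trans ((le_max_right _ _).trans ((le_max_right _ _).trans hN))
    have hNg : (2 * H / (1 - α) + 4) * (2 * H + 4) ≤ N :=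
      (le_max_right _ _).trans ((le_max_right _ _).trans ((le_max_right _ _).trans hN))
    have hNp : 0 < N := by linarith
    -- three bad sets
    set E : ℕ → ℕ → (ℕ → ℕ) → ℕ → Prop := fun L j v n => ∃ a : ℕ,
        2 * ((Ico (v n) (v n + L * (T + 1))).filter (fun u =>
          ¬ ArithmeticFunction.cardFactors ((n - u) * (n + u + j)) ≡ a [MOD q])).card < L with hE
    set w : ℕ → ℕ := fun n => ⌊√((1 - α) * n)⌋₊ - U2 with hw
    have hwmono : Monotone w := by
      intro x y hxy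
      simp only [hw]
      apply Nat.sub_le_sub_right
      apply Nat.floor_le_floor
      apply Real.sqrt_le_sqrt
      have : (x : ℝ) ≤ y := by exact_mod_cast hxy
      have h2 : 0 ≤ 1 - α := by linarith
      exact mul_le_mul_of_nonneg_left this h2
    have hA := hN1 N hNa (fun _ => 1) 0 (by norm_num) monotone_const (by
      push_cast
      rw [div_le_iff₀ hκ] at hNd
      linarith) (S.filter (E L1 0 (fun _ => 1))) (by
      intro n hn
      rw [mem_filter] at hn
      obtain ⟨g1, g2, -⟩ := hS n hn.1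
      exact ⟨g1, g2, hn.2⟩)
    have hB := hN1 N hNa (fun _ => 1) 1 (by norm_num) monotone_const (by
      push_cast
      rw [div_le_iff₀ hκ] at hNd
      linarith) (S.filter (E L1 1 (fun _ => 1))) (by
      intro n hn
      rw [mem_filter] at hn
      obtain ⟨g1, g2, -⟩ := hS n hn.1
      exact ⟨g1, g2, hn.2⟩)
    have hC := hN2 N hNb w 1 (by norm_num) hwmono (by
      have h1 : ((w ⌊3 * N⌋₊ : ℕ) : ℝ) ≤ √((1 - α) * (⌊3 * N⌋₊ : ℕ)) := by
        have h2 : w ⌊3 * N⌋₊ ≤ ⌊√((1 - α) * (⌊3 * N⌋₊ : ℕ))⌋₊ := Nat.sub_le _ _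
        refine le_trans (by exact_mod_cast h2) (Nat.floor_le (Real.sqrt_nonneg _))
      refine h1.trans ?_
      rw [Real.sqrt_le_left (by positivity)]
      have h3 : ((⌊3 * N⌋₊ : ℕ) : ℝ) ≤ 3 * N := Nat.floor_le (by positivity)
      have h4 : 0 ≤ 1 - α := by linarith
      calc (1 - α) * ((⌊3 * N⌋₊ : ℕ) : ℝ) ≤ 2 * (3 * N) := by
            have : (0 : ℝ) ≤ ((⌊3 * N⌋₊ : ℕ) : ℝ) := Nat.cast_nonneg _
            nlinarith
        _ = 6 * N := by ring
        _ ≤ (κ * N) ^ 2 := by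
            rw [div_le_iff₀ (by positivity)] at hNe
            nlinarith) (S.filter (E L2 1 w)) (by
      intro n hn
      rw [mem_filter] at hn
      obtain ⟨g1, g2, -⟩ := hS n hn.1
      exact ⟨g1, g2, hn.2⟩)
    -- S is the union
    have hcov : S ⊆ (S.filter (E L1 0 (fun _ => 1)) ∪ S.filter (E L1 1 (fun _ => 1))) ∪
        S.filter (E L2 1 w) := by
      intro n hn
      by_contra hcon
      simp only [mem_union, mem_filter, not_or, not_and] at hcon
      obtain ⟨⟨k1, k2⟩, k3⟩ := hcon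
      have k1 := k1 hn
      have k2 := k2 hn
      have k3 := k3 hn
      obtain ⟨g1, g2, g3, g4⟩ := hS n hn
      apply g4
      intro a
      simp only [hE] at k1 k2 k3
      push Not at k1 k2 k3
      have k1 := k1 a
      have k2 := k2 a
      have k3 := k3 a
      have hnH : 16 * (H : ℝ) + 16 ≤ n := by linarith
      have hU1H : (U1 : ℝ) ≤ √H / 4 := by
        rw [hU1]
        push_cast
        calc (L1 : ℝ) * (T + 1) ≤ √(H : ℝ) / (4 * (T + 1)) * (T + 1) := by gcongr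
          _ = √H / 4 := by field_simp
      have hsH1 : 16 ≤ √(H : ℝ) := by
        have : (0 : ℝ) ≤ T := Nat.cast_nonneg T
        linarith
      have hUH1 : (U1 + 1) * (U1 + 1 + 1) ≤ H := by
        have : ((U1 : ℝ) + 1) * (U1 + 1 + 1) ≤ H := by
          rw [← hsH2]
          have h0 : (0 : ℝ) ≤ U1 := Nat.cast_nonneg _
          nlinarith
        exact_mod_cast this
      have hUn1 : U1 + 1 ≤ n := by
        have : (U1 : ℝ) + 1 ≤ n := by
          have : √(H : ℝ) ≤ H := by nlinarith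
          linarith
        exact_mod_cast this
      have hlow1 : ∀ x : ℕ, L1 ≤ 2 * x → 1 / (64 * (T + 1 : ℝ)) * √H ≤ x := by
        intro x hx
        have h1 : (L1 : ℝ) ≤ 2 * x := by exact_mod_cast hx
        have h2 : 1 / (64 * (T + 1 : ℝ)) * √H = √(H : ℝ) / (8 * (T + 1)) / 8 := by
          field_simp
          ring
        have h3 : 0 ≤ √(H : ℝ) / (8 * (T + 1)) := by positivity
        rw [h2]
        linarith
      have hlow2 : ∀ x : ℕ, L2 ≤ 2 * x → 1 / (64 * (T + 1 : ℝ)) * H ≤ x := by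
        intro x hx
        have h1 : (L2 : ℝ) ≤ 2 * x := by exact_mod_cast hx
        have h2 : 1 / (64 * (T + 1 : ℝ)) * H = (H : ℝ) / (16 * (T + 1)) / 4 := by
          field_simp
          ring
        have h3 : 0 ≤ (H : ℝ) / (16 * (T + 1)) := by positivity
        rw [h2]
        linarith
      refine ⟨?_, ?_, ?_⟩
      · have h1 := right_end q n 0 H U1 a (by
          refine le_trans ?_ hUH1
          nlinarith) hUn1
        have h2 := hlow1 _ k1
        refine h2.trans ?_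
        have h3 : ((Set.ncard {m : ℕ | (n : ℝ) ^ 2 + ((0 : ℕ) : ℝ) * n - H < m ∧
            (m : ℝ) < (n : ℝ) ^ 2 + ((0 : ℕ) : ℝ) * n ∧
            ¬ ArithmeticFunction.cardFactors m ≡ a [MOD q]} : ℕ) : ℝ)
            = Set.ncard {m : ℕ | (n : ℝ) ^ 2 - H < m ∧ (m : ℝ) < (n : ℝ) ^ 2 ∧
            ¬ ArithmeticFunction.cardFactors m ≡ a [MOD q]} := by
          congr 2
          ext m
          simp only [Nat.cast_zero, zero_mul, add_zero]
        rw [← h3]
        exact_mod_cast h1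
      · have h1 := right_end q n 1 H U1 a hUH1 hUn1
        have h2 := hlow1 _ k2
        refine h2.trans ?_
        have h3 : ((Set.ncard {m : ℕ | (n : ℝ) ^ 2 + ((1 : ℕ) : ℝ) * n - H < m ∧
            (m : ℝ) < (n : ℝ) ^ 2 + ((1 : ℕ) : ℝ) * n ∧
            ¬ ArithmeticFunction.cardFactors m ≡ a [MOD q]} : ℕ) : ℝ)
            = Set.ncard {m : ℕ | (n : ℝ) ^ 2 + n - H < m ∧ (m : ℝ) < (n : ℝ) ^ 2 + n ∧
            ¬ ArithmeticFunction.cardFactors m ≡ a [MOD q]} := by
          congr 2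
          ext m
          simp only [Nat.cast_one, one_mul]
        rw [← h3]
        exact_mod_cast h1
      · have hα0 : 0 < 1 - α := by linarith
        have hn0 : (0 : ℝ) < n := by linarith
        have hU2H : (U2 : ℝ) ≤ H / 8 := by
          rw [hU2]
          push_cast
          calc (L2 : ℝ) * (T + 1) ≤ (H : ℝ) / (8 * (T + 1)) * (T + 1) := by gcongr
            _ = H / 8 := by field_simp
        -- sqrt is at least H + 2
        have hsq : (H : ℝ) + 2 ≤ √((1 - α) * n) := by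
          apply Real.le_sqrt_of_sq_le
          have h1 : (2 * H / (1 - α) + 4) * (2 * H + 4) ≤ n := hNg.trans g1
          have h2 : (1 - α) * ((2 * H / (1 - α) + 4) * (2 * H + 4)) ≤ (1 - α) * n :=
            mul_le_mul_of_nonneg_left h1 hα0.le
          have h3 : (1 - α) * ((2 * H / (1 - α) + 4) * (2 * H + 4))
              = (2 * H + 4 * (1 - α)) * (2 * H + 4) := by
            field_simp
          rw [h3] at h2
          have h4 : (0 : ℝ) ≤ 4 * (1 - α) * (2 * H + 4) := by positivity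
          have h5 : (16 : ℝ) ≤ H := by
            have : (0 : ℝ) ≤ T := Nat.cast_nonneg T
            linarith
          nlinarith
        have hfl : √((1 - α) * n) < (⌊√((1 - α) * n)⌋₊ : ℝ) + 1 := Nat.lt_floor_add_one _
        have hfl2 : (⌊√((1 - α) * n)⌋₊ : ℝ) ≤ √((1 - α) * n) := Nat.floor_le (Real.sqrt_nonneg _)
        have hUle : U2 ≤ ⌊√((1 - α) * n)⌋₊ := by
          have : (U2 : ℝ) < (⌊√((1 - α) * n)⌋₊ : ℝ) + 1 := by linarith
          exact Nat.lt_succ_iff.mp (by exact_mod_cast this)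
        have hwn : ((w n : ℕ) : ℝ) = (⌊√((1 - α) * n)⌋₊ : ℝ) - U2 := by
          simp only [hw]
          rw [Nat.cast_sub hUle]
        have hsn : √((1 - α) * n) ≤ n / 2 := by
          rw [Real.sqrt_le_left (by positivity)]
          nlinarith
        have h1 := left_end q n H (w n) U2 a α hα1 hα2 (by omega)
          (by linarith) (by rw [hwn]; linarith) (by rw [hwn]; linarith)
          (by
            have : ((w n : ℕ) : ℝ) + U2 + 1 ≤ n := by rw [hwn]; linarith
            exact_mod_cast this)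
        have h2 := hlow2 _ k3
        refine h2.trans ?_
        exact_mod_cast h1
    have hle := (card_le_card hcov).trans ((card_union_le _ _).trans
      (Nat.add_le_add_right (card_union_le _ _) _))
    have hle' : (S.card : ℝ) ≤ ((S.filter (E L1 0 (fun _ => 1))).card : ℝ)
        + ((S.filter (E L1 1 (fun _ => 1))).card : ℝ) + ((S.filter (E L2 1 w)).card : ℝ) := by
      exact_mod_cast hle
    linarith)
  refine ⟨N0, fun N hN => ?_⟩
  have hfin : Set.Finite {n : ℕ | n ≤ N ∧ Pr n} := by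
    apply Set.Finite.subset (Set.finite_Icc 0 N)
    intro n hn
    exact ⟨Nat.zero_le _, hn.1⟩
  have h1 := hN0 N hN hfin.toFinset (by
    intro n hn
    rw [Set.Finite.mem_toFinset] at hn
    exact ⟨hn.2.1, hn.1, hn.2⟩)
  rw [← Set.ncard_eq_toFinset_card _ hfin] at h1
  have e1 : 3 * (η / 3) * N = η * N := by ring
  rw [e1] at h1
  refine le_trans (le_of_eq ?_) h1
  congr 2
  ext n
  simp only [Set.mem_ofPred_eq, hPr]
  tauto

end Pool.Agent.MRE
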