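import Pool.Agent.MRE.Ends

set_option autoImplicit false

/-!
# Parity patterns `(Ω(a), Ω(m - a))` in bounded windows, for almost all `m`
-/

open Finset

namespace Pool.Agent.MRE

open Pool.Agent.MR

/-- Liouville's function. -/
noncomputable def lam (n : ℕ) : ℝ := (-1) ^ (ArithmeticFunction.cardFactors n)

theorem lam_or (n : ℕ) : lam n = 1 ∨ lam n = -1 := by
  unfold lam
  exact neg_one_pow_eq_or ℝ _

theorem lam_mul_self (n : ℕ) : lam n * lam n = 1 := by
  rcases lam_or n with h | h <;> rw [h] <;> norm_num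

theorem gz_two (n : ℕ) : gz 2 n = (lam n : ℂ) := by
  unfold gz lam
  have : Complex.exp (2 * Real.pi * Complex.I / (2 : ℕ)) = -1 := by
    rw [← Complex.exp_pi_mul_I]
    congr 1
    push_cast
    ring
  rw [this]
  push_cast
  rfl

/-- good starting points from two symmetric windows. -/
theorem pair_good (H k T m v v' W : ℕ) (hkW : 2 * k ∣ W) (hk : 1 ≤ k) (hv : v ≤ v')
    (hv' : v' ≤ v + k) (hm : v' + H ≤ m) (c c' : ℝ) (hc : c * c = 1) (hc' : c' * c' = 1)
    (E1 E2 : Finset ℕ) (h1 : ∀ a ∈ Ico v (v + H), a ∉ E1 → lam (m - a) = c * lam a)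
    (h2 : ∀ a ∈ Ico v' (v' + H), a ∉ E2 → lam (m + k - a) = c' * lam a) :
    (H : ℝ) - k - T - T * (E1.card + E2.card) ≤
      (((Ico (m + 1 - v - H) (m + 1 - v)).filter (fun w => ∀ x ∈ Ico w (w + T), ∀ y ∈ Ico w (w + T),
        x ≡ 1 [MOD W] → y ≡ 1 [MOD W] → gz 2 x = gz 2 y)).card : ℝ) := by
  classical
  rcases lt_or_ge H (k + T) with hlt | hge
  · have h3 : (H : ℝ) ≤ k + T := by exact_mod_cast hlt.le
    have h4 : (0 : ℝ) ≤ T * (E1.card + E2.card) := by positivity
    have h5 : (0 : ℝ) ≤ (((Ico (m + 1 - v - H) (m + 1 - v)).filter (fun w => ∀ x ∈ Ico w (w + T),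
      ∀ y ∈ Ico w (w + T), x ≡ 1 [MOD W] → y ≡ 1 [MOD W] → gz 2 x = gz 2 y)).card : ℝ) :=
      Nat.cast_nonneg _
    linarith
  set lo : ℕ := m + 1 - v - H with hlo
  set Bad : Finset ℕ := (E1 ∪ E2).biUnion (fun e => Ico (m - e + 1 - T) (m - e + 1)) with hBad
  have hBc : Bad.card ≤ T * (E1.card + E2.card) := by
    calc Bad.card ≤ ∑ e ∈ E1 ∪ E2, (Ico (m - e + 1 - T) (m - e + 1)).card := card_biUnion_le
      _ ≤ ∑ e ∈ E1 ∪ E2, T := by
          apply sum_le_sum
          intro e _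
          rw [Nat.card_Ico]
          omega
      _ = (E1 ∪ E2).card * T := by rw [sum_const, smul_eq_mul]
      _ ≤ (E1.card + E2.card) * T := Nat.mul_le_mul_right _ (card_union_le _ _)
      _ = _ := by ring
  have hsub : Ico lo (lo + (H - k - T)) \ Bad ⊆
      (Ico lo (m + 1 - v)).filter (fun w => ∀ x ∈ Ico w (w + T), ∀ y ∈ Ico w (w + T),
        x ≡ 1 [MOD W] → y ≡ 1 [MOD W] → gz 2 x = gz 2 y) := by
    intro w hw
    rw [mem_sdiff, mem_Ico] at hw
    obtain ⟨⟨hw1, hw2⟩, hw3⟩ := hw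
    rw [mem_filter, mem_Ico]
    refine ⟨⟨hw1, by omega⟩, ?_⟩
    -- the relation
    have hrel : ∀ y ∈ Ico w (w + T), lam (y + k) = c' * c * lam y := by
      intro y hy
      rw [mem_Ico] at hy
      have hnot : m - y ∉ E1 ∪ E2 := by
        intro hmem
        apply hw3
        rw [hBad, mem_biUnion]
        refine ⟨m - y, hmem, ?_⟩
        rw [mem_Ico]
        omega
      rw [mem_union, not_or] at hnot
      have e1 := h1 (m - y) (by rw [mem_Ico]; omega) hnot.1
      have e2 := h2 (m - y) (by rw [mem_Ico]; omega) hnot.2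
      rw [show m - (m - y) = y by omega] at e1
      rw [show m + k - (m - y) = y + k by omega] at e2
      rw [e2, e1]
      linear_combination (-(c' * lam (m - y))) * hc
    have hiter : ∀ j x : ℕ, w ≤ x → x + 2 * k * j < w + T → lam (x + 2 * k * j) = lam x := by
      intro j
      induction j with
      | zero => intro x _ _; simp
      | succ j ih =>
        intro x hx hxj
        have e : x + 2 * k * (j + 1) = (x + 2 * k * j + k) + k := by ring
        rw [e] at hxj ⊢
        rw [hrel (x + 2 * k * j + k) (by rw [mem_Ico]; omega),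
          hrel (x + 2 * k * j) (by rw [mem_Ico]; omega), ih x hx (by omega)]
        linear_combination (c * c * lam x) * hc' + lam x * hc
    have hcase : ∀ x ∈ Ico w (w + T), ∀ y ∈ Ico w (w + T), x ≤ y → x ≡ 1 [MOD W] → y ≡ 1 [MOD W] →
        gz 2 x = gz 2 y := by
      intro x hx y hy hxy hx1 hy1
      rw [mem_Ico] at hx hy
      obtain ⟨l, hl⟩ := hkW.trans ((Nat.modEq_iff_dvd' hxy).mp (hx1.trans hy1.symm))
      have e : y = x + 2 * k * l := by omega
      rw [gz_two, gz_two, e, hiter l x hx.1 (by omega)]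
    intro x hx y hy hx1 hy1
    rcases le_total x y with h | h
    · exact hcase x hx y hy h hx1 hy1
    · exact (hcase y hy x hx h hy1 hx1).symm
  have h3 := card_le_card hsub
  have h4 : (Ico lo (lo + (H - k - T))).card ≤ (Ico lo (lo + (H - k - T)) \ Bad).card + Bad.card := by
    have := card_le_card_sdiff_add_card (t := Bad) (s := Ico lo (lo + (H - k - T)))
    exact this
  rw [Nat.card_Ico] at h4
  have h5 : H ≤ ((Ico lo (m + 1 - v)).filter (fun w => ∀ x ∈ Ico w (w + T), ∀ y ∈ Ico w (w + T),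
        x ≡ 1 [MOD W] → y ≡ 1 [MOD W] → gz 2 x = gz 2 y)).card + T * (E1.card + E2.card) + k + T := by
    omega
  have h6 : (H : ℝ) ≤ (((Ico lo (m + 1 - v)).filter (fun w => ∀ x ∈ Ico w (w + T), ∀ y ∈ Ico w (w + T),
        x ≡ 1 [MOD W] → y ≡ 1 [MOD W] → gz 2 x = gz 2 y)).card : ℝ) + T * (E1.card + E2.card) + k + T := by
    exact_mod_cast h5
  linarith

/-- slow growth. -/
theorem v_lip (v : ℕ → ℕ) (hv : Monotone v) (hv2 : ∀ m, v (m + 2) ≤ v m + 1) :
    ∀ j m : ℕ, v (m + j) ≤ v m + (j + 1) / 2 := by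
  intro j
  induction j using Nat.strong_induction_on with
  | _ j ih =>
    intro m
    rcases j with _ | _ | j
    · simp
    · have h1 := hv (show m + 1 ≤ m + 2 by omega)
      have h2 := hv2 m
      simp only [zero_add]
      omega
    · have h1 := ih j (by omega) m
      have h2 := hv2 (m + j)
      rw [show m + (j + 1 + 1) = m + j + 2 by ring]
      omega

/-- few windows on which the sum of `λ` is large. -/
theorem bal_count (ε η : ℝ) (hε : 0 < ε) (hη : 0 < η) :
    ∃ H0 : ℕ, ∀ H : ℕ, H0 ≤ H → ∃ N0 : ℝ, ∀ N : ℝ, N0 ≤ N → ∀ S : Finset ℕ,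
      (∀ w ∈ S, N ≤ w ∧ (w : ℝ) ≤ 2 * N ∧ ε * H < |∑ n ∈ Ico w (w + H), lam n|) →
      (S.card : ℝ) ≤ η * N := by
  classical
  obtain ⟨H0, hH0⟩ := mr_window (gz 2) (fun n => (gz_norm 2 le_rfl n).le) 1 one_pos
    (fun χ => gz_CM 2 le_rfl 1 χ) (fun χ => gz_PW 2 le_rfl 1 χ) (ε * η) (by positivity)
  refine ⟨max H0 1, fun H hH => ?_⟩
  have hHa : H0 ≤ H := (le_max_left _ _).trans hH
  have hHb : 1 ≤ H := (le_max_right _ _).trans hH
  have hHr : (0 : ℝ) < H := by exact_mod_cast hHb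
  obtain ⟨N0, hN0⟩ := hH0 H hHa
  refine ⟨N0, fun N hN S hS => ?_⟩
  have hmain := hN0 N hN
  have hsub : S ⊆ Icc ⌈N⌉₊ ⌊2 * N⌋₊ := by
    intro w hw
    obtain ⟨h1, h2, -⟩ := hS w hw
    rw [mem_Icc]
    exact ⟨Nat.ceil_le.mpr h1, Nat.le_floor h2⟩
  have hlow : ∀ w ∈ S, ε * H ≤
      ‖∑ n ∈ Ico w (w + H), (if n ≡ 1 [MOD 1] then gz 2 n else 0)‖ := by
    intro w hw
    obtain ⟨-, -, h3⟩ := hS w hw
    have e : ∑ n ∈ Ico w (w + H), (if n ≡ 1 [MOD 1] then gz 2 n else 0)
        = ((∑ n ∈ Ico w (w + H), lam n : ℝ) : ℂ) := by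
      push_cast
      apply sum_congr rfl
      intro n _
      rw [if_pos (Nat.modEq_one), gz_two]
    rw [e, Complex.norm_real, Real.norm_eq_abs]
    exact h3.le
  have h6 : (S.card : ℝ) * (ε * H) ≤ ε * η * H * N := by
    refine le_trans ?_ hmain
    rw [← nsmul_eq_mul, ← sum_const]
    refine (sum_le_sum hlow).trans ?_
    exact sum_le_sum_of_subset_of_nonneg hsub (fun _ _ _ => norm_nonneg _)
  have h7 : (S.card : ℝ) * (ε * H) ≤ (η * N) * (ε * H) := by
    refine h6.trans (le_of_eq ?_)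
    ring
  exact le_of_mul_le_mul_right h7 (by positivity)

/-- the same along a sequence of bounded multiplicity. -/
theorem bal_seq (ε η : ℝ) (hε : 0 < ε) (hη : 0 < η) :
    ∃ H0 : ℕ, ∀ H : ℕ, H0 ≤ H → ∃ N0 : ℝ, ∀ V : ℝ, N0 ≤ V → ∀ M : ℝ, ∀ f : ℕ → ℕ, ∀ S : Finset ℕ,
      (∀ m ∈ S, V ≤ f m ∧ (f m : ℝ) ≤ 8 * V ∧ ε * H < |∑ n ∈ Ico (f m) (f m + H), lam n|) →
      (∀ w : ℕ, ((S.filter (fun m => f m = w)).card : ℝ) * V ≤ 8 * M) →
      (S.card : ℝ) ≤ η * M := by
  classical
  obtain ⟨H0, hH0⟩ := bal_count ε (η / 56) hε (by positivity)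
  refine ⟨H0, fun H hH => ?_⟩
  obtain ⟨N0, hN0⟩ := hH0 H hH
  refine ⟨max N0 1, fun V hV M f S hS hmul => ?_⟩
  have hVa : N0 ≤ V := (le_max_left _ _).trans hV
  have hVb : 1 ≤ V := (le_max_right _ _).trans hV
  have hV0 : 0 < V := by linarith
  set I := S.image f with hI
  have hprop : ∀ w ∈ I, V ≤ w ∧ (w : ℝ) ≤ 8 * V ∧ ε * H < |∑ n ∈ Ico w (w + H), lam n| := by
    intro w hw
    rw [hI, mem_image] at hw
    obtain ⟨m, hm, rfl⟩ := hw
    exact hS m hm
  have hA := hN0 V hVa (I.filter (fun w : ℕ => (w : ℝ) ≤ 2 * V)) (by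
    intro w hw
    rw [mem_filter] at hw
    obtain ⟨p1, p2, p3⟩ := hprop w hw.1
    exact ⟨p1, hw.2, p3⟩)
  have hB := hN0 (2 * V) (by linarith) (I.filter (fun w : ℕ => 2 * V ≤ (w : ℝ) ∧ (w : ℝ) ≤ 4 * V)) (by
    intro w hw
    rw [mem_filter] at hw
    obtain ⟨p1, p2, p3⟩ := hprop w hw.1
    exact ⟨hw.2.1, by linarith [hw.2.2], p3⟩)
  have hC := hN0 (4 * V) (by linarith) (I.filter (fun w : ℕ => 4 * V ≤ (w : ℝ))) (by
    intro w hw
    rw [mem_filter] at hw
    obtain ⟨p1, p2, p3⟩ := hprop w hw.1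
    exact ⟨hw.2, by linarith, p3⟩)
  have hcov : I ⊆ (I.filter (fun w : ℕ => (w : ℝ) ≤ 2 * V) ∪
      I.filter (fun w : ℕ => 2 * V ≤ (w : ℝ) ∧ (w : ℝ) ≤ 4 * V)) ∪ I.filter (fun w : ℕ => 4 * V ≤ (w : ℝ)) := by
    intro w hw
    simp only [mem_union, mem_filter]
    rcases le_total (w : ℝ) (2 * V) with h | h
    · left; left; exact ⟨hw, h⟩
    · rcases le_total (w : ℝ) (4 * V) with h' | h'
      · left; right; exact ⟨hw, h, h'⟩
      · right; exact ⟨hw, h'⟩
  have hle := (card_le_card hcov).trans ((card_union_le _ _).trans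
    (Nat.add_le_add_right (card_union_le _ _) _))
  have hle' : (I.card : ℝ) ≤ ((I.filter (fun w : ℕ => (w : ℝ) ≤ 2 * V)).card : ℝ) +
      ((I.filter (fun w : ℕ => 2 * V ≤ (w : ℝ) ∧ (w : ℝ) ≤ 4 * V)).card : ℝ) +
      ((I.filter (fun w : ℕ => 4 * V ≤ (w : ℝ))).card : ℝ) := by
    exact_mod_cast hle
  have hIc : (I.card : ℝ) ≤ η / 8 * V := by linarith
  -- fibres
  have hfib : (S.card : ℝ) = ∑ w ∈ I, ((S.filter (fun m => f m = w)).card : ℝ) := by
    exact_mod_cast card_eq_sum_card_image f S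
  have h1 : (S.card : ℝ) * V ≤ I.card * (8 * M) := by
    rw [hfib, sum_mul, ← nsmul_eq_mul, ← sum_const]
    exact sum_le_sum (fun w _ => hmul w)
  rcases S.eq_empty_or_nonempty with hSe | hSne
  · -- M is nonnegative here
    rw [hSe, card_empty] at hfib ⊢
    have := hmul 0
    rw [hSe, filter_empty, card_empty] at this
    push_cast at this ⊢
    have hM : 0 ≤ M := by linarith
    positivity
  · have hM : 0 ≤ M := by
      have := hmul 0
      have h2 : (0 : ℝ) ≤ ((S.filter (fun m => f m = 0)).card : ℝ) * V := by positivity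
      linarith
    have h2 : (I.card : ℝ) * (8 * M) ≤ η / 8 * V * (8 * M) := by gcongr
    have h3 : (S.card : ℝ) * V ≤ (η * M) * V := by
      calc (S.card : ℝ) * V ≤ η / 8 * V * (8 * M) := h1.trans h2
        _ = (η * M) * V := by ring
    exact le_of_mul_le_mul_right h3 hV0

/-- windows symmetric up to few errors: few centres. -/
theorem sym_count (η : ℝ) (hη : 0 < η) :
    ∃ T : ℕ, 0 < T ∧ ∃ H1 : ℕ, ∀ H : ℕ, H1 ≤ H → ∃ M0 : ℝ, ∀ M : ℝ, M0 ≤ M → ∀ v : ℕ → ℕ,
      Monotone v → (∀ m, v (m + 2) ≤ v m + 1) → (∀ m : ℕ, M ≤ m → (m : ℝ) ≤ 2 * M → 2 * v m ≤ m) →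
      ∀ S : Finset ℕ, (∀ m ∈ S, M ≤ m ∧ (m : ℝ) ≤ 2 * M ∧ ∃ c : ℝ, c * c = 1 ∧
        8 * T * ((Ico (v m) (v m + H)).filter (fun a => lam (m - a) ≠ c * lam a)).card ≤ H) →
      (S.card : ℝ) ≤ η * M := by
  classical
  set K : ℕ := ⌈4 / η⌉₊ with hK
  have hK4 : 4 / η ≤ K := Nat.le_ceil _
  have hK0 : 0 < K := by
    rw [hK]
    exact Nat.ceil_pos.mpr (by positivity)
  have hKr : (0 : ℝ) < K := by exact_mod_cast hK0
  set W : ℕ := 2 * K.factorial with hW
  have hW0 : 0 < W := by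
    have := K.factorial_pos
    positivity
  obtain ⟨T0, hT0⟩ := const_count 2 le_rfl W hW0 (η / 16) (by positivity)
  set T : ℕ := max T0 1 with hT
  have hTp : 0 < T := lt_of_lt_of_le one_pos (le_max_right _ _)
  refine ⟨T, hTp, 4 * (K + T), fun H hH => ?_⟩
  obtain ⟨N1, hN1⟩ := hT0 T (le_max_left _ _)
  refine ⟨max (max (4 * N1) (4 * (H : ℝ) + 4 * K + 8)) (max (8 * K + 8) (32 / η)),
    fun M hM v hv hv2 hvm S hS => ?_⟩
  have hMa : 4 * N1 ≤ M := (le_max_left _ _).trans ((le_max_left _ _).trans hM)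
  have hMb : 4 * (H : ℝ) + 4 * K + 8 ≤ M := (le_max_right _ _).trans ((le_max_left _ _).trans hM)
  have hMd : 32 / η ≤ M := (le_max_right _ _).trans ((le_max_right _ _).trans hM)
  have hH0 : (0 : ℝ) ≤ H := Nat.cast_nonneg H
  have hM0 : 0 < M := by linarith
  have hηM : 32 ≤ η * M := by
    rw [div_le_iff₀ hη] at hMd
    linarith
  have hHr : 4 * ((K : ℝ) + T) ≤ H := by exact_mod_cast hH
  have hTr : (0 : ℝ) < T := by exact_mod_cast hTp
  have hHp : (0 : ℝ) < H := by linarith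
  set a : ℕ := ⌈M⌉₊ with ha
  set b : ℕ := ⌊2 * M⌋₊ with hb
  have haM : M ≤ a := Nat.le_ceil _
  have hbM : (b : ℝ) ≤ 2 * M := Nat.floor_le (by positivity)
  have hSab : ∀ n ∈ S, a ≤ n ∧ n ≤ b := by
    intro n hn
    obtain ⟨h1, h2, -⟩ := hS n hn
    exact ⟨Nat.ceil_le.mpr h1, Nat.le_floor h2⟩
  set S2 : Finset ℕ := S.filter (fun n => ∃ k, 1 ≤ k ∧ k ≤ K ∧ n + k ∈ S) with hS2
  have hc2 : ((S \ S2).card : ℝ) ≤ η / 4 * M + η * M / 16 := by
    have h1 := sparse_count (S \ S2) a b K (by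
      intro n hn
      exact hSab n (mem_sdiff.mp hn).1) (by
      intro n hn k hk1 hk2 hcon
      have hn' := mem_sdiff.mp hn
      apply hn'.2
      rw [hS2, mem_filter]
      exact ⟨hn'.1, k, hk1, hk2, (mem_sdiff.mp hcon).1⟩)
    rcases (S \ S2).eq_empty_or_nonempty with h0 | ⟨n, hn⟩
    · rw [h0, card_empty]
      push_cast
      have h8 : 0 < η * M := by positivity
      linarith
    · have hab : a ≤ b := (hSab n (mem_sdiff.mp hn).1).1.trans (hSab n (mem_sdiff.mp hn).1).2
      have h2 : ((K : ℝ) + 1) * ((S \ S2).card : ℝ) ≤ b + K + 1 - a := by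
        have h3 : (K + 1) * (S \ S2).card + a ≤ b + K + 1 := by omega
        have h4 : (((K + 1) * (S \ S2).card + a : ℕ) : ℝ) ≤ ((b + K + 1 : ℕ) : ℝ) := by
          exact_mod_cast h3
        push_cast at h4
        linarith
      have h5 : ((S \ S2).card : ℝ) ≤ (M + K + 1) / (K + 1) := by
        rw [le_div_iff₀ (by positivity)]
        linarith
      have h6 : (M + K + 1) / (K + 1) = M / (K + 1) + 1 := by
        field_simp
        ring
      have h7 : M / (K + 1) ≤ η / 4 * M := by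
        rw [div_le_iff₀ (by positivity)]
        have : 4 ≤ η * K := by
          rw [div_le_iff₀ hη] at hK4
          linarith
        have h8 : 0 < η * M := by positivity
        nlinarith
      linarith
  -- the good starting points
  set good : ℕ → Finset ℕ := fun m => (Ico (m + 1 - v m - H) (m + 1 - v m)).filter
    (fun w => ∀ x ∈ Ico w (w + T), ∀ y ∈ Ico w (w + T), x ≡ 1 [MOD W] → y ≡ 1 [MOD W] →
      gz 2 x = gz 2 y) with hgood
  have hlip := v_lip v hv hv2
  have hgc : ∀ m ∈ S2, (H : ℝ) / 2 ≤ ((good m).card : ℝ) := by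
    intro m hm
    rw [hS2, mem_filter] at hm
    obtain ⟨hmS, k, hk1, hk2, hkS⟩ := hm
    obtain ⟨g1, g2, c, hc, hE⟩ := hS m hmS
    obtain ⟨g1', g2', c', hc', hE'⟩ := hS (m + k) hkS
    have hl := hlip k m
    have hvk := hvm (m + k) g1' g2'
    have hkW : 2 * k ∣ W := by
      have h1 : k ∣ K.factorial := Nat.dvd_factorial (by omega) hk2
      exact Nat.mul_dvd_mul_left _ h1
    have hmH : 4 * H + 4 * K + 8 ≤ m := by
      have : 4 * (H : ℝ) + 4 * K + 8 ≤ m := hMb.trans g1
      exact_mod_cast this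
    have h1 := pair_good H k T m (v m) (v (m + k)) W hkW hk1 (hv (Nat.le_add_right _ _))
      (by omega) (by omega) c c' hc hc'
      ((Ico (v m) (v m + H)).filter (fun a => lam (m - a) ≠ c * lam a))
      ((Ico (v (m + k)) (v (m + k) + H)).filter (fun a => lam (m + k - a) ≠ c' * lam a))
      (by
        intro a ha hn
        by_contra hcon
        exact hn (mem_filter.mpr ⟨ha, hcon⟩))
      (by
        intro a ha hn
        by_contra hcon
        exact hn (mem_filter.mpr ⟨ha, hcon⟩))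
    refine le_trans ?_ h1
    have e1 : 8 * (T : ℝ) * (((Ico (v m) (v m + H)).filter (fun a => lam (m - a) ≠ c * lam a)).card : ℝ)
        ≤ H := by exact_mod_cast hE
    have e2 : 8 * (T : ℝ) * (((Ico (v (m + k)) (v (m + k) + H)).filter
        (fun a => lam (m + k - a) ≠ c' * lam a)).card : ℝ) ≤ H := by exact_mod_cast hE'
    have e3 : (k : ℝ) ≤ K := by exact_mod_cast hk2
    nlinarith
  have hS2c : (S2.card : ℝ) ≤ 7 * η / 16 * M := by
    set G : Finset ℕ := S2.biUnion good with hG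
    -- properties of G
    have hprop : ∀ w ∈ G, M / 4 ≤ w ∧ (w : ℝ) ≤ 2 * M ∧
        ∀ x ∈ Ico w (w + T), ∀ y ∈ Ico w (w + T), x ≡ 1 [MOD W] → y ≡ 1 [MOD W] →
          gz 2 x = gz 2 y := by
      intro w hw
      rw [hG, mem_biUnion] at hw
      obtain ⟨m, hm, hw⟩ := hw
      rw [hgood] at hw
      simp only [] at hw
      rw [mem_filter, mem_Ico] at hw
      obtain ⟨g1, g2, -⟩ := hS m (mem_filter.mp hm).1
      have hvk := hvm m g1 g2
      refine ⟨?_, ?_, hw.2⟩
      · have h1 : m ≤ w + v m + H := by omega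
        have h2 : (m : ℝ) ≤ w + v m + H := by exact_mod_cast h1
        have h3 : 2 * (v m : ℝ) ≤ m := by exact_mod_cast hvk
        linarith
      · have h1 : w ≤ m := by omega
        have h2 : (w : ℝ) ≤ m := by exact_mod_cast h1
        linarith
    have hcA := hN1 (M / 4) (by linarith) (G.filter (fun w : ℕ => (w : ℝ) ≤ M / 2)) (by
      intro w hw
      rw [mem_filter] at hw
      obtain ⟨p1, p2, p3⟩ := hprop w hw.1
      exact ⟨p1, by linarith [hw.2], p3⟩)
    have hcB := hN1 (M / 2) (by linarith) (G.filter (fun w : ℕ => M / 2 ≤ (w : ℝ) ∧ (w : ℝ) ≤ M)) (by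
      intro w hw
      rw [mem_filter] at hw
      obtain ⟨p1, p2, p3⟩ := hprop w hw.1
      exact ⟨hw.2.1, by linarith [hw.2.2], p3⟩)
    have hcC := hN1 M (by linarith) (G.filter (fun w : ℕ => M ≤ (w : ℝ))) (by
      intro w hw
      rw [mem_filter] at hw
      obtain ⟨p1, p2, p3⟩ := hprop w hw.1
      exact ⟨hw.2, by linarith, p3⟩)
    have hcov : G ⊆ (G.filter (fun w : ℕ => (w : ℝ) ≤ M / 2) ∪
        G.filter (fun w : ℕ => M / 2 ≤ (w : ℝ) ∧ (w : ℝ) ≤ M)) ∪ G.filter (fun w : ℕ => M ≤ (w : ℝ)) := by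
      intro w hw
      simp only [mem_union, mem_filter]
      rcases le_total (w : ℝ) (M / 2) with h | h
      · left; left; exact ⟨hw, h⟩
      · rcases le_total (w : ℝ) M with h' | h'
        · left; right; exact ⟨hw, h, h'⟩
        · right; exact ⟨hw, h'⟩
    have hle := (card_le_card hcov).trans ((card_union_le _ _).trans
      (Nat.add_le_add_right (card_union_le _ _) _))
    have hle' : (G.card : ℝ) ≤ ((G.filter (fun w : ℕ => (w : ℝ) ≤ M / 2)).card : ℝ) +
        ((G.filter (fun w : ℕ => M / 2 ≤ (w : ℝ) ∧ (w : ℝ) ≤ M)).card : ℝ) +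
        ((G.filter (fun w : ℕ => M ≤ (w : ℝ))).card : ℝ) := by
      exact_mod_cast hle
    have hGc : (G.card : ℝ) ≤ 7 * η / 64 * M := by linarith
    -- multiplicity
    have hmul : ∀ w ∈ G, (S2.filter (fun m => w ∈ good m)).card ≤ 2 * H := by
      intro w _
      rcases (S2.filter (fun m => w ∈ good m)).eq_empty_or_nonempty with h0 | hne
      · rw [h0, card_empty]
        exact Nat.zero_le _
      · set m1 := (S2.filter (fun m => w ∈ good m)).min' hne with hm1
        have hm1mem := Finset.min'_mem _ hne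
        rw [← hm1, mem_filter] at hm1mem
        have hsub : S2.filter (fun m => w ∈ good m) ⊆ Ico m1 (m1 + 2 * H) := by
          intro m hm
          have hmin : m1 ≤ m := Finset.min'_le _ _ hm
          rw [mem_filter] at hm
          rw [mem_Ico]
          refine ⟨hmin, ?_⟩
          by_contra hcon
          rw [not_lt] at hcon
          have hl := hlip (m - m1) m1
          rw [show m1 + (m - m1) = m by omega] at hl
          have hw1 := hm1mem.2
          have hw2 := hm.2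
          rw [hgood] at hw1 hw2
          simp only [] at hw1 hw2
          rw [mem_filter, mem_Ico] at hw1 hw2
          omega
        have := card_le_card hsub
        rw [Nat.card_Ico] at this
        omega
    have hdc : ∑ m ∈ S2, (good m).card = ∑ w ∈ G, (S2.filter (fun m => w ∈ good m)).card := by
      have h1 : ∀ m ∈ S2, (good m).card = (G.filter (fun w => w ∈ good m)).card := by
        intro m hm
        congr 1
        ext w
        constructor
        · intro h
          exact mem_filter.mpr ⟨mem_biUnion.mpr ⟨m, hm, h⟩, h⟩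
        · intro h
          exact (mem_filter.mp h).2
      rw [sum_congr rfl h1]
      simp only [card_filter]
      exact sum_comm
    have h1 : (S2.card : ℝ) * (H / 2) ≤ ((∑ m ∈ S2, (good m).card : ℕ) : ℝ) := by
      push_cast
      rw [← nsmul_eq_mul, ← sum_const]
      exact sum_le_sum hgc
    have h2 : ((∑ m ∈ S2, (good m).card : ℕ) : ℝ) ≤ G.card * (2 * H) := by
      rw [hdc]
      have : ∑ w ∈ G, (S2.filter (fun m => w ∈ good m)).card ≤ G.card * (2 * H) := by
        rw [← smul_eq_mul, ← sum_const]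
        exact sum_le_sum hmul
      exact_mod_cast this
    have h3 : (G.card : ℝ) * (2 * H) ≤ 7 * η / 64 * M * (2 * H) := by gcongr
    have h4 : (S2.card : ℝ) * (H / 2) ≤ (7 * η / 16 * M) * (H / 2) := by
      calc (S2.card : ℝ) * (H / 2) ≤ 7 * η / 64 * M * (2 * H) := h1.trans (h2.trans h3)
        _ = (7 * η / 16 * M) * (H / 2) := by ring
    exact le_of_mul_le_mul_right h4 (by positivity)
  have hsum' : (S.card : ℝ) = ((S \ S2).card : ℝ) + (S2.card : ℝ) := by
    have e2 := card_sdiff_add_card_eq_card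
      (filter_subset (fun n => ∃ k, 1 ≤ k ∧ k ≤ K ∧ n + k ∈ S) S)
    rw [← hS2] at e2
    exact_mod_cast e2.symm
  have h8 : 0 < η * M := by positivity
  linarith

theorem lam_of_mod (n s : ℕ) : (if ArithmeticFunction.cardFactors n ≡ s [MOD 2] then (1 : ℝ) else 0)
    = (1 + (-1) ^ s * lam n) / 2 := by
  unfold lam
  set o := ArithmeticFunction.cardFactors n with ho
  rcases Nat.mod_two_eq_zero_or_one s with hs | hs <;>
  rcases Nat.mod_two_eq_zero_or_one o with hn | hn
  · rw [if_pos (show o ≡ s [MOD 2] by unfold Nat.ModEq; omega), (Nat.even_iff.mpr hs).neg_one_pow,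
      (Nat.even_iff.mpr hn).neg_one_pow]
    norm_num
  · rw [if_neg (show ¬ o ≡ s [MOD 2] by unfold Nat.ModEq; omega), (Nat.even_iff.mpr hs).neg_one_pow,
      (Nat.odd_iff.mpr hn).neg_one_pow]
    norm_num
  · rw [if_neg (show ¬ o ≡ s [MOD 2] by unfold Nat.ModEq; omega), (Nat.odd_iff.mpr hs).neg_one_pow,
      (Nat.even_iff.mpr hn).neg_one_pow]
    norm_num
  · rw [if_pos (show o ≡ s [MOD 2] by unfold Nat.ModEq; omega), (Nat.odd_iff.mpr hs).neg_one_pow,
      (Nat.odd_iff.mpr hn).neg_one_pow]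
    norm_num

theorem pat_sum (I : Finset ℕ) (m s t : ℕ) :
    4 * ((I.filter (fun a => ArithmeticFunction.cardFactors a ≡ s [MOD 2] ∧
      ArithmeticFunction.cardFactors (m - a) ≡ t [MOD 2])).card : ℝ)
    = I.card + (-1) ^ s * ∑ a ∈ I, lam a + (-1) ^ t * ∑ a ∈ I, lam (m - a)
      + (-1) ^ s * (-1) ^ t * ∑ a ∈ I, lam a * lam (m - a) := by
  have h1 : ((I.filter (fun a => ArithmeticFunction.cardFactors a ≡ s [MOD 2] ∧
      ArithmeticFunction.cardFactors (m - a) ≡ t [MOD 2])).card : ℝ)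
      = ∑ a ∈ I, ((1 + (-1) ^ s * lam a) / 2) * ((1 + (-1) ^ t * lam (m - a)) / 2) := by
    rw [card_filter]
    push_cast
    apply sum_congr rfl
    intro a _
    rw [← lam_of_mod a s, ← lam_of_mod (m - a) t]
    by_cases h1 : ArithmeticFunction.cardFactors a ≡ s [MOD 2] <;>
      by_cases h2 : ArithmeticFunction.cardFactors (m - a) ≡ t [MOD 2] <;> simp [h1, h2]
  rw [h1, card_eq_sum_ones, mul_sum, mul_sum, mul_sum, mul_sum]
  push_cast
  rw [← sum_add_distrib, ← sum_add_distrib, ← sum_add_distrib]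
  apply sum_congr rfl
  intro a _
  ring

theorem ne_sum (I : Finset ℕ) (m : ℕ) (c : ℝ) (hc : c = 1 ∨ c = -1) :
    2 * ((I.filter (fun a => lam (m - a) ≠ c * lam a)).card : ℝ)
    = I.card - c * ∑ a ∈ I, lam a * lam (m - a) := by
  rw [card_filter, card_eq_sum_ones, mul_sum]
  push_cast
  rw [mul_sum, ← sum_sub_distrib]
  apply sum_congr rfl
  intro a _
  rcases hc with rfl | rfl <;> rcases lam_or a with h1 | h1 <;> rcases lam_or (m - a) with h2 | h2 <;>
    rw [h1, h2] <;> norm_num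

theorem refl_sum (v H m : ℕ) (hv : v + H ≤ m) :
    ∑ a ∈ Ico v (v + H), lam (m - a) = ∑ y ∈ Ico (m + 1 - v - H) (m + 1 - v - H + H), lam y := by
  apply sum_nbij' (fun a => m - a) (fun y => m - y)
  · intro a ha
    rw [mem_Ico] at ha ⊢
    omega
  · intro y hy
    rw [mem_Ico] at hy ⊢
    omega
  · intro a ha
    rw [mem_Ico] at ha
    omega
  · intro y hy
    rw [mem_Ico] at hy
    omega
  · intro a _
    rfl

/-- four patterns along a sequence of windows. -/
theorem pat_seq (η : ℝ) (hη : 0 < η) :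
    ∃ δ : ℝ, 0 < δ ∧ ∃ H1 : ℕ, ∀ H : ℕ, H1 ≤ H → ∃ M0 : ℝ, ∀ M : ℝ, M0 ≤ M → ∀ v : ℕ → ℕ, ∀ V : ℝ,
      M0 ≤ V → Monotone v → (∀ m, v (m + 2) ≤ v m + 1) →
      (∀ m : ℕ, M ≤ m → (m : ℝ) ≤ 2 * M → 2 * v m ≤ m) →
      (∀ m : ℕ, M ≤ m → (m : ℝ) ≤ 2 * M → V ≤ v m ∧ (v m : ℝ) ≤ 8 * V) →
      (∀ F : Finset ℕ, ∀ w, (∀ m ∈ F, M ≤ m ∧ (m : ℝ) ≤ 2 * M ∧ v m = w) →
        (F.card : ℝ) * V ≤ 8 * M) →
      ∀ S : Finset ℕ, (∀ m ∈ S, M ≤ m ∧ (m : ℝ) ≤ 2 * M ∧ ∃ s t : ℕ,
        (((Ico (v m) (v m + H)).filter (fun a => ArithmeticFunction.cardFactors a ≡ s [MOD 2] ∧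
          ArithmeticFunction.cardFactors (m - a) ≡ t [MOD 2])).card : ℝ) < δ * H) →
      (S.card : ℝ) ≤ η * M := by
  classical
  obtain ⟨T, hT, H1, hsym⟩ := sym_count (η / 4) (by positivity)
  have hTr : (0 : ℝ) < T := by exact_mod_cast hT
  obtain ⟨H2, hbal⟩ := bal_seq (1 / (16 * T)) (η / 4) (by positivity) (by positivity)
  refine ⟨1 / (32 * T), by positivity, max (max H1 H2) 1, fun H hH => ?_⟩
  have hHa : H1 ≤ H := (le_max_left _ _).trans ((le_max_left _ _).trans hH)
  have hHb : H2 ≤ H := (le_max_right _ _).trans ((le_max_left _ _).trans hH)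
  have hHc : 1 ≤ H := (le_max_right _ _).trans hH
  have hHr : (1 : ℝ) ≤ H := by exact_mod_cast hHc
  obtain ⟨M1, hM1⟩ := hsym H hHa
  obtain ⟨N1, hN1⟩ := hbal H hHb
  refine ⟨max (max M1 (4 * N1)) (max N1 (4 * H + 8)), fun M hM v V hV hv hv2 hvm hvV hmul S hS => ?_⟩
  have hMa : M1 ≤ M := (le_max_left _ _).trans ((le_max_left _ _).trans hM)
  have hMb : 4 * N1 ≤ M := (le_max_right _ _).trans ((le_max_left _ _).trans hM)
  have hMc : 4 * (H : ℝ) + 8 ≤ M := (le_max_right _ _).trans ((le_max_right _ _).trans hM)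
  have hVa : N1 ≤ V := (le_max_left _ _).trans ((le_max_right _ _).trans hV)
  have hM0 : 0 < M := by linarith
  set SA : Finset ℕ := S.filter (fun m => 1 / (16 * T) * (H : ℝ) < |∑ n ∈ Ico (v m) (v m + H), lam n|) with hSA
  set u : ℕ → ℕ := fun m => m + 1 - v m - H with hu
  set SB : Finset ℕ := S.filter (fun m => 1 / (16 * T) * (H : ℝ) < |∑ n ∈ Ico (u m) (u m + H), lam n|) with hSB
  set SC : Finset ℕ := S.filter (fun m => ∃ c : ℝ, c * c = 1 ∧
        8 * T * ((Ico (v m) (v m + H)).filter (fun a => lam (m - a) ≠ c * lam a)).card ≤ H) with hSC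
  have hA : (SA.card : ℝ) ≤ η / 4 * M := by
    apply hN1 V hVa M v SA
    · intro m hm
      rw [hSA, mem_filter] at hm
      obtain ⟨g1, g2, -⟩ := hS m hm.1
      obtain ⟨g3, g4⟩ := hvV m g1 g2
      exact ⟨g3, g4, hm.2⟩
    · intro w
      apply hmul _ w
      intro m hm
      rw [mem_filter, hSA, mem_filter] at hm
      obtain ⟨g1, g2, -⟩ := hS m hm.1.1
      exact ⟨g1, g2, hm.2⟩
  have hB : (SB.card : ℝ) ≤ η / 4 * M := by
    apply hN1 (M / 4) (by linarith) M u SB
    · intro m hm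
      rw [hSB, mem_filter] at hm
      obtain ⟨g1, g2, -⟩ := hS m hm.1
      have g3 := hvm m g1 g2
      refine ⟨?_, ?_, hm.2⟩
      · have h1 : m ≤ u m + v m + H := by
          simp only [hu]
          omega
        have h2 : (m : ℝ) ≤ u m + v m + H := by exact_mod_cast h1
        have h3 : 2 * (v m : ℝ) ≤ m := by exact_mod_cast g3
        linarith
      · have h1 : u m ≤ m := by
          simp only [hu]
          omega
        have h2 : (u m : ℝ) ≤ m := by exact_mod_cast h1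
        linarith
    · intro w
      have hle2 : (SB.filter (fun m => u m = w)).card ≤ 2 := by
        rcases (SB.filter (fun m => u m = w)).eq_empty_or_nonempty with h0 | hne
        · rw [h0, card_empty]
          exact Nat.zero_le _
        · set m1 := (SB.filter (fun m => u m = w)).min' hne with hm1
          have hm1mem := Finset.min'_mem _ hne
          rw [← hm1, mem_filter, hSB, mem_filter] at hm1mem
          have hsub : SB.filter (fun m => u m = w) ⊆ Ico m1 (m1 + 2) := by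
            intro m hm
            have hmin : m1 ≤ m := Finset.min'_le _ _ hm
            rw [mem_filter, hSB, mem_filter] at hm
            rw [mem_Ico]
            refine ⟨hmin, ?_⟩
            by_contra hcon
            rw [not_lt] at hcon
            have hl := v_lip v hv hv2 (m - m1) m1
            rw [show m1 + (m - m1) = m by omega] at hl
            have hw1 := hm1mem.2
            have hw2 := hm.2
            simp only [hu] at hw1 hw2
            obtain ⟨g1, g2, -⟩ := hS m1 hm1mem.1.1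
            have g3 := hvm m1 g1 g2
            have g4 : 4 * H + 8 ≤ m1 := by
              have : 4 * (H : ℝ) + 8 ≤ m1 := hMc.trans g1
              exact_mod_cast this
            omega
          have := card_le_card hsub
          rw [Nat.card_Ico] at this
          omega
      have h2 : ((SB.filter (fun m => u m = w)).card : ℝ) ≤ 2 := by exact_mod_cast hle2
      nlinarith
  have hC : (SC.card : ℝ) ≤ η / 4 * M := by
    apply hM1 M hMa v hv hv2 hvm SC
    intro m hm
    rw [hSC, mem_filter] at hm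
    obtain ⟨g1, g2, -⟩ := hS m hm.1
    exact ⟨g1, g2, hm.2⟩
  have hcov : S ⊆ (SA ∪ SB) ∪ SC := by
    intro m hm
    by_contra hcon
    rw [mem_union, mem_union, not_or, not_or, hSA, hSB, hSC, mem_filter, mem_filter, mem_filter] at hcon
    obtain ⟨⟨h1, h2⟩, h3⟩ := hcon
    obtain ⟨g1, g2, s, t, g3⟩ := hS m hm
    have g4 := hvm m g1 g2
    have g5 : 4 * H + 8 ≤ m := by
      have : 4 * (H : ℝ) + 8 ≤ m := hMc.trans g1
      exact_mod_cast this
    have k1 : |∑ n ∈ Ico (v m) (v m + H), lam n| ≤ 1 / (16 * T) * (H : ℝ) := by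
      by_contra h
      exact h1 ⟨hm, not_le.mp h⟩
    have k2 : |∑ n ∈ Ico (u m) (u m + H), lam n| ≤ 1 / (16 * T) * (H : ℝ) := by
      by_contra h
      exact h2 ⟨hm, not_le.mp h⟩
    have k3 : ∀ c : ℝ, c = 1 ∨ c = -1 → (H : ℝ) ≤ 8 * T *
        (((Ico (v m) (v m + H)).filter (fun a => lam (m - a) ≠ c * lam a)).card : ℝ) := by
      intro c hc
      by_contra h
      apply h3
      refine ⟨hm, c, ?_, ?_⟩
      · rcases hc with rfl | rfl <;> norm_num
      · have := (not_le.mp h).le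
        exact_mod_cast this
    have hrefl := refl_sum (v m) H m (by omega)
    rw [← show u m = m + 1 - v m - H from rfl] at hrefl
    rw [← hrefl] at k2
    set X := ∑ n ∈ Ico (v m) (v m + H), lam n with hX
    set Y := ∑ a ∈ Ico (v m) (v m + H), lam (m - a) with hY
    set Z := ∑ a ∈ Ico (v m) (v m + H), lam a * lam (m - a) with hZ
    have hcard : ((Ico (v m) (v m + H)).card : ℝ) = H := by
      rw [Nat.card_Ico]
      push_cast [Nat.add_sub_cancel_left]
      ring
    have e1 := ne_sum (Ico (v m) (v m + H)) m 1 (Or.inl rfl)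
    have e2 := ne_sum (Ico (v m) (v m + H)) m (-1) (Or.inr rfl)
    have k4 := k3 1 (Or.inl rfl)
    have k5 := k3 (-1) (Or.inr rfl)
    have e3 := pat_sum (Ico (v m) (v m + H)) m s t
    rw [hcard] at e1 e2 e3
    rw [← hZ] at e1 e2 e3
    rw [← hX, ← hY] at e3
    have hT2 : (0 : ℝ) < 8 * T := by positivity
    have k6 : (H : ℝ) / (8 * T) ≤
        (((Ico (v m) (v m + H)).filter (fun a => lam (m - a) ≠ 1 * lam a)).card : ℝ) := by
      rw [div_le_iff₀ hT2]
      linarith
    have k7 : (H : ℝ) / (8 * T) ≤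
        (((Ico (v m) (v m + H)).filter (fun a => lam (m - a) ≠ (-1) * lam a)).card : ℝ) := by
      rw [div_le_iff₀ hT2]
      linarith
    have e4 : 1 / (16 * (T : ℝ)) * H = (H : ℝ) / (8 * T) / 2 := by
      field_simp
      ring
    have e5 : 1 / (32 * (T : ℝ)) * H = (H : ℝ) / (8 * T) / 4 := by
      field_simp
      ring
    rw [e4] at k1 k2
    rw [e5] at g3
    set D := (H : ℝ) / (8 * T) with hD
    rw [abs_le] at k1 k2
    rcases neg_one_pow_eq_or ℝ s with hs | hs <;> rcases neg_one_pow_eq_or ℝ t with ht | ht <;>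
      rw [hs, ht] at e3 <;> linarith [k1.1, k1.2, k2.1, k2.2]
  have hle := (card_le_card hcov).trans ((card_union_le _ _).trans
    (Nat.add_le_add_right (card_union_le _ _) _))
  have hle' : (S.card : ℝ) ≤ SA.card + SB.card + SC.card := by exact_mod_cast hle
  have h8 : 0 < η * M := by positivity
  linarith

end Pool.Agent.MRE
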