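import Pool.Agent.MRE.Pat

set_option autoImplicit false

/-!
# Parity patterns `(Ω(a), Ω(N - a))` for `a` in `(βN - H, βN]` and in `(√N, √N + H]`
-/

open Finset

namespace Pool.Agent.MRE

theorem set_beta (β : ℝ) (hβ : 0 < β) (N H s t : ℕ) (hN : (H : ℝ) ≤ β * N) :
    Set.ncard {a : ℕ | β * N - H < a ∧ (a : ℝ) ≤ β * N ∧
      ArithmeticFunction.cardFactors a ≡ s [MOD 2] ∧ ArithmeticFunction.cardFactors (N - a) ≡ t [MOD 2]}
    = ((Ico (⌊β * N⌋₊ + 1 - H) (⌊β * N⌋₊ + 1 - H + H)).filter (fun a =>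
        ArithmeticFunction.cardFactors a ≡ s [MOD 2] ∧
        ArithmeticFunction.cardFactors (N - a) ≡ t [MOD 2])).card := by
  rw [← Set.ncard_coe_finset]
  congr 1
  ext a
  rw [Set.mem_ofPred_eq, mem_coe, mem_filter, mem_Ico]
  have h0 : 0 ≤ β * (N : ℝ) := by positivity
  have hHf : H ≤ ⌊β * (N : ℝ)⌋₊ := Nat.le_floor hN
  have e1 : β * N - H < a ↔ ⌊β * (N : ℝ)⌋₊ < a + H := by
    rw [Nat.floor_lt h0]
    push_cast
    exact sub_lt_iff_lt_add
  have e2 : (a : ℝ) ≤ β * N ↔ a ≤ ⌊β * (N : ℝ)⌋₊ := (Nat.le_floor_iff h0).symm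
  rw [e1, e2]
  constructor
  · rintro ⟨g1, g2, g3⟩
    exact ⟨by omega, g3⟩
  · rintro ⟨g1, g2⟩
    exact ⟨by omega, by omega, g2⟩

theorem set_sqrt (N H s t : ℕ) :
    Set.ncard {a : ℕ | √(N : ℝ) < a ∧ (a : ℝ) ≤ √(N : ℝ) + H ∧
      ArithmeticFunction.cardFactors a ≡ s [MOD 2] ∧ ArithmeticFunction.cardFactors (N - a) ≡ t [MOD 2]}
    = ((Ico (Nat.sqrt N + 1) (Nat.sqrt N + 1 + H)).filter (fun a =>
        ArithmeticFunction.cardFactors a ≡ s [MOD 2] ∧
        ArithmeticFunction.cardFactors (N - a) ≡ t [MOD 2])).card := by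
  rw [← Set.ncard_coe_finset]
  congr 1
  ext a
  rw [Set.mem_ofPred_eq, mem_coe, mem_filter, mem_Ico]
  have h0 : 0 ≤ √(N : ℝ) := Real.sqrt_nonneg _
  have e1 : √(N : ℝ) < a ↔ Nat.sqrt N < a := by
    rw [← Nat.floor_lt h0, Real.nat_floor_real_sqrt_eq_nat_sqrt]
  have e2 : (a : ℝ) ≤ √(N : ℝ) + H ↔ a ≤ Nat.sqrt N + H := by
    rw [← Nat.le_floor_iff (by positivity), Nat.floor_add_natCast h0,
      Real.nat_floor_real_sqrt_eq_nat_sqrt]
  rw [e1, e2]
  constructor
  · rintro ⟨g1, g2, g3⟩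
    exact ⟨by omega, g3⟩
  · rintro ⟨g1, g2⟩
    exact ⟨by omega, by omega, g2⟩

theorem sqrt_two_step (m : ℕ) : Nat.sqrt (m + 2) ≤ Nat.sqrt m + 1 := by
  have h1 : m < (Nat.sqrt m + 1) ^ 2 := by
    rw [← Nat.sqrt_lt']
    exact Nat.lt_succ_self _
  have h2 : Nat.sqrt (m + 2) < Nat.sqrt m + 2 := by
    rw [Nat.sqrt_lt']
    have : (Nat.sqrt m + 2) ^ 2 = (Nat.sqrt m + 1) ^ 2 + 2 * Nat.sqrt m + 3 := by ring
    omega
  omega

/-- The main theorem. -/
theorem patterns (η : ℝ) (hη : 0 < η) :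
    ∃ c : ℝ, 0 < c ∧ ∃ H0 : ℕ, ∀ H : ℕ, H0 ≤ H → ∀ β : ℝ, 0 < β → β ≤ 1 / 2 → ∃ M0 : ℕ, ∀ M : ℕ,
      M0 ≤ M → (Set.ncard {N : ℕ | 1 ≤ N ∧ N ≤ M ∧ ¬ ∀ s t : ℕ,
        c * H ≤ Set.ncard {a : ℕ | β * N - H < a ∧ (a : ℝ) ≤ β * N ∧
          ArithmeticFunction.cardFactors a ≡ s [MOD 2] ∧
          ArithmeticFunction.cardFactors (N - a) ≡ t [MOD 2]} ∧
        c * H ≤ Set.ncard {a : ℕ | √(N : ℝ) < a ∧ (a : ℝ) ≤ √(N : ℝ) + H ∧
          ArithmeticFunction.cardFactors a ≡ s [MOD 2] ∧
          ArithmeticFunction.cardFactors (N - a) ≡ t [MOD 2]}} : ℝ) ≤ η * M := by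
  classical
  obtain ⟨δ, hδ, H1, hH1⟩ := pat_seq (η / 6) (by positivity)
  refine ⟨δ, hδ, max H1 1, fun H hH β hβ hβ2 => ?_⟩
  have hHa : H1 ≤ H := (le_max_left _ _).trans hH
  have hHb : 1 ≤ H := (le_max_right _ _).trans hH
  have hHr : (1 : ℝ) ≤ H := by exact_mod_cast hHb
  obtain ⟨M1, hM1⟩ := hH1 H hHa
  set Pr : ℕ → Prop := fun N => ¬ ∀ s t : ℕ,
        δ * H ≤ Set.ncard {a : ℕ | β * N - H < a ∧ (a : ℝ) ≤ β * N ∧
          ArithmeticFunction.cardFactors a ≡ s [MOD 2] ∧
          ArithmeticFunction.cardFactors (N - a) ≡ t [MOD 2]} ∧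
        δ * H ≤ Set.ncard {a : ℕ | √(N : ℝ) < a ∧ (a : ℝ) ≤ √(N : ℝ) + H ∧
          ArithmeticFunction.cardFactors a ≡ s [MOD 2] ∧
          ArithmeticFunction.cardFactors (N - a) ≡ t [MOD 2]} with hPr
  set M2 : ℝ := max (max M1 (2 * |M1| / β)) (max (M1 ^ 2) (max (2 * H / β) 100)) with hM2
  obtain ⟨N0, hN0⟩ := dyadic Pr (η / 3) M2 (by positivity) (by
    have h1 : (100 : ℝ) ≤ M2 := (le_max_right _ _).trans ((le_max_right _ _).trans (le_max_right _ _))
    linarith) (by
    intro M hM S hS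
    have hMa : M1 ≤ M := (le_max_left _ _).trans ((le_max_left _ _).trans hM)
    have hMb : 2 * |M1| / β ≤ M := (le_max_right _ _).trans ((le_max_left _ _).trans hM)
    have hMc : M1 ^ 2 ≤ M := (le_max_left _ _).trans ((le_max_right _ _).trans hM)
    have hMd : 2 * H / β ≤ M :=
      (le_max_left _ _).trans ((le_max_right _ _).trans ((le_max_right _ _).trans hM))
    have hMe : 100 ≤ M :=
      (le_max_right _ _).trans ((le_max_right _ _).trans ((le_max_right _ _).trans hM))
    have hMp : 0 < M := by linarith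
    rw [div_le_iff₀ hβ] at hMb hMd
    have hsM : 10 ≤ √M := by
      apply Real.le_sqrt_of_sq_le
      linarith
    have hsM2 : √M * √M = M := Real.mul_self_sqrt hMp.le
    set v : ℕ → ℕ := fun m => ⌊β * m⌋₊ + 1 - H with hv
    set w : ℕ → ℕ := fun m => Nat.sqrt m + 1 with hw
    have hvmono : Monotone v := by
      intro x y hxy
      simp only [hv]
      apply Nat.sub_le_sub_right
      apply Nat.add_le_add_right
      apply Nat.floor_le_floor
      have : (x : ℝ) ≤ y := by exact_mod_cast hxy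
      exact mul_le_mul_of_nonneg_left this hβ.le
    have hv2 : ∀ m, v (m + 2) ≤ v m + 1 := by
      intro m
      have h1 : ⌊β * ((m + 2 : ℕ) : ℝ)⌋₊ ≤ ⌊β * (m : ℝ) + 1⌋₊ := by
        apply Nat.floor_le_floor
        push_cast
        linarith
      rw [Nat.floor_add_one (by positivity)] at h1
      simp only [hv]
      omega
    have hvm : ∀ m : ℕ, 2 * v m ≤ m := by
      intro m
      have h1 : (⌊β * (m : ℝ)⌋₊ : ℝ) ≤ β * m := Nat.floor_le (by positivity)
      have h2 : β * (m : ℝ) ≤ 1 / 2 * m := by gcongr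
      have h3 : 2 * (⌊β * (m : ℝ)⌋₊ : ℝ) ≤ m := by linarith
      have h4 : 2 * ⌊β * (m : ℝ)⌋₊ ≤ m := by exact_mod_cast h3
      simp only [hv]
      omega
    have hwmono : Monotone w := by
      intro x y hxy
      simp only [hw]
      exact Nat.add_le_add_right (Nat.sqrt_le_sqrt hxy) 1
    have hw2 : ∀ m, w (m + 2) ≤ w m + 1 := by
      intro m
      simp only [hw]
      have := sqrt_two_step m
      omega
    have hβM : ∀ m : ℕ, M ≤ m → (H : ℝ) ≤ β * m := by
      intro m hm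
      have : β * M ≤ β * m := by gcongr
      linarith
    -- first family
    have hA := hM1 M hMa v (β * M / 2) (by
        have := le_abs_self M1
        linarith) hvmono hv2 (fun m _ _ => hvm m) (by
        intro m g1 g2
        have hHf : H ≤ ⌊β * (m : ℝ)⌋₊ := Nat.le_floor (hβM m g1)
        have h1 : β * (m : ℝ) < ⌊β * (m : ℝ)⌋₊ + 1 := Nat.lt_floor_add_one _
        have h2 : (⌊β * (m : ℝ)⌋₊ : ℝ) ≤ β * m := Nat.floor_le (by positivity)
        have h3 : ((v m : ℕ) : ℝ) = ⌊β * (m : ℝ)⌋₊ + 1 - H := by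
          simp only [hv]
          rw [Nat.cast_sub (by omega)]
          push_cast
          ring
        have h4 : β * M ≤ β * m := by gcongr
        have h5 : β * m ≤ β * (2 * M) := by gcongr
        rw [h3]
        constructor
        · linarith
        · linarith) (by
        intro F x hF
        rcases F.eq_empty_or_nonempty with h0 | hne
        · rw [h0, card_empty]
          push_cast
          linarith
        · set m1 := F.min' hne with hm1
          set m2 := F.max' hne with hm2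
          have hm1F := F.min'_mem hne
          have hm2F := F.max'_mem hne
          rw [← hm1] at hm1F
          rw [← hm2] at hm2F
          have h12 : m1 ≤ m2 := F.min'_le _ hm2F
          obtain ⟨a1, a2, a3⟩ := hF m1 hm1F
          obtain ⟨b1, b2, b3⟩ := hF m2 hm2F
          have hHf1 : H ≤ ⌊β * (m1 : ℝ)⌋₊ := Nat.le_floor (hβM m1 a1)
          have hHf2 : H ≤ ⌊β * (m2 : ℝ)⌋₊ := Nat.le_floor (hβM m2 b1)
          have heq : ⌊β * (m1 : ℝ)⌋₊ = ⌊β * (m2 : ℝ)⌋₊ := by
            simp only [hv] at a3 b3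
            omega
          have h1 : (⌊β * (m1 : ℝ)⌋₊ : ℝ) ≤ β * m1 := Nat.floor_le (by positivity)
          have h2 : β * (m2 : ℝ) < ⌊β * (m2 : ℝ)⌋₊ + 1 := Nat.lt_floor_add_one _
          rw [heq] at h1
          have h3 : F.card ≤ m2 + 1 - m1 := by
            rw [← Nat.card_Icc]
            apply card_le_card
            intro z hz
            rw [mem_Icc]
            exact ⟨F.min'_le _ hz, F.le_max' _ hz⟩
          have h4 : (F.card : ℝ) ≤ m2 + 1 - m1 := by
            have : F.card + m1 ≤ m2 + 1 := by omega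
            have h5 : ((F.card + m1 : ℕ) : ℝ) ≤ ((m2 + 1 : ℕ) : ℝ) := by exact_mod_cast this
            push_cast at h5
            linarith
          have h5 : (F.card : ℝ) * (β * M / 2) ≤ (m2 + 1 - m1) * (β * M / 2) := by gcongr
          have h6 : ((m2 : ℝ) + 1 - m1) * β ≤ 2 := by nlinarith
          have h7 : ((m2 : ℝ) + 1 - m1) * (β * M / 2) = ((m2 : ℝ) + 1 - m1) * β * (M / 2) := by ring
          have h8 : ((m2 : ℝ) + 1 - m1) * β * (M / 2) ≤ 2 * (M / 2) := by gcongr
          linarith)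
      (S.filter (fun m => ∃ s t : ℕ,
        (((Ico (v m) (v m + H)).filter (fun a => ArithmeticFunction.cardFactors a ≡ s [MOD 2] ∧
          ArithmeticFunction.cardFactors (m - a) ≡ t [MOD 2])).card : ℝ) < δ * H)) (by
        intro m hm
        rw [mem_filter] at hm
        obtain ⟨g1, g2, -⟩ := hS m hm.1
        exact ⟨g1, g2, hm.2⟩)
    -- second family
    have hsq : ∀ m : ℕ, (Nat.sqrt m : ℝ) ≤ √(m : ℝ) ∧ √(m : ℝ) < Nat.sqrt m + 1 := by
      intro m
      have h0 : 0 ≤ √(m : ℝ) := Real.sqrt_nonneg _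
      have h1 := Nat.floor_le h0
      have h2 := Nat.lt_floor_add_one √(m : ℝ)
      rw [Real.nat_floor_real_sqrt_eq_nat_sqrt] at h1 h2
      exact ⟨h1, h2⟩
    have hs2 : √(2 * M) ≤ 3 / 2 * √M := by
      rw [Real.sqrt_le_left (by positivity)]
      nlinarith
    have hB := hM1 M hMa w (√M) (by
        have h1 : |M1| ≤ √M := Real.abs_le_sqrt hMc
        exact (le_abs_self M1).trans h1) hwmono hw2 (by
        intro m g1 g2
        obtain ⟨q1, -⟩ := hsq m
        have h1 : √(m : ℝ) * √(m : ℝ) = m := Real.mul_self_sqrt (Nat.cast_nonneg m)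
        have h2 : √M ≤ √(m : ℝ) := Real.sqrt_le_sqrt g1
        have h3 : 2 * ((Nat.sqrt m : ℝ) + 1) ≤ m := by nlinarith
        simp only [hw]
        exact_mod_cast h3) (by
        intro m g1 g2
        obtain ⟨q1, q2⟩ := hsq m
        have h2 : √M ≤ √(m : ℝ) := Real.sqrt_le_sqrt g1
        have h3 : √(m : ℝ) ≤ √(2 * M) := Real.sqrt_le_sqrt g2
        simp only [hw]
        push_cast
        constructor <;> linarith) (by
        intro F x hF
        rcases F.eq_empty_or_nonempty with h0 | ⟨m0, hm0⟩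
        · rw [h0, card_empty]
          push_cast
          linarith
        · obtain ⟨a1, a2, a3⟩ := hF m0 hm0
          obtain ⟨q1, q2⟩ := hsq m0
          have h3 : √(m0 : ℝ) ≤ √(2 * M) := Real.sqrt_le_sqrt a2
          set y := Nat.sqrt m0 with hy
          have h4 : F.card ≤ 2 * y + 1 := by
            have hsub : F ⊆ Ico (y ^ 2) ((y + 1) ^ 2) := by
              intro z hz
              obtain ⟨-, -, c3⟩ := hF z hz
              have hzy : Nat.sqrt z = y := by
                simp only [hw] at a3 c3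
                omega
              rw [mem_Ico, ← Nat.sqrt_lt']
              refine ⟨?_, by omega⟩
              rw [← hzy]
              exact Nat.sqrt_le' z
            have := card_le_card hsub
            rw [Nat.card_Ico] at this
            have e : (y + 1) ^ 2 = y ^ 2 + (2 * y + 1) := by ring
            omega
          have h5 : (F.card : ℝ) ≤ 2 * y + 1 := by exact_mod_cast h4
          have h6 : (F.card : ℝ) * √M ≤ (2 * (3 / 2 * √M) + 1) * √M := by
            gcongr
            linarith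
          nlinarith)
      (S.filter (fun m => ∃ s t : ℕ,
        (((Ico (w m) (w m + H)).filter (fun a => ArithmeticFunction.cardFactors a ≡ s [MOD 2] ∧
          ArithmeticFunction.cardFactors (m - a) ≡ t [MOD 2])).card : ℝ) < δ * H)) (by
        intro m hm
        rw [mem_filter] at hm
        obtain ⟨g1, g2, -⟩ := hS m hm.1
        exact ⟨g1, g2, hm.2⟩)
    have hcov : S ⊆ S.filter (fun m => ∃ s t : ℕ,
        (((Ico (v m) (v m + H)).filter (fun a => ArithmeticFunction.cardFactors a ≡ s [MOD 2] ∧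
          ArithmeticFunction.cardFactors (m - a) ≡ t [MOD 2])).card : ℝ) < δ * H) ∪
        S.filter (fun m => ∃ s t : ℕ,
        (((Ico (w m) (w m + H)).filter (fun a => ArithmeticFunction.cardFactors a ≡ s [MOD 2] ∧
          ArithmeticFunction.cardFactors (m - a) ≡ t [MOD 2])).card : ℝ) < δ * H) := by
      intro m hm
      obtain ⟨g1, g2, g3⟩ := hS m hm
      simp only [hPr] at g3
      push Not at g3
      obtain ⟨s, t, g3⟩ := g3
      rw [mem_union, mem_filter, mem_filter]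
      by_cases hc : δ * H ≤ Set.ncard {a : ℕ | β * m - H < a ∧ (a : ℝ) ≤ β * m ∧
          ArithmeticFunction.cardFactors a ≡ s [MOD 2] ∧
          ArithmeticFunction.cardFactors (m - a) ≡ t [MOD 2]}
      · right
        have g4 := g3 hc
        rw [set_sqrt] at g4
        exact ⟨hm, s, t, g4⟩
      · left
        rw [not_le, set_beta β hβ m H s t (hβM m g1)] at hc
        exact ⟨hm, s, t, hc⟩
    have hle := (card_le_card hcov).trans (card_union_le _ _)
    have hle' : (S.card : ℝ) ≤ ((S.filter (fun m => ∃ s t : ℕ,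
        (((Ico (v m) (v m + H)).filter (fun a => ArithmeticFunction.cardFactors a ≡ s [MOD 2] ∧
          ArithmeticFunction.cardFactors (m - a) ≡ t [MOD 2])).card : ℝ) < δ * H)).card : ℝ) +
        ((S.filter (fun m => ∃ s t : ℕ,
        (((Ico (w m) (w m + H)).filter (fun a => ArithmeticFunction.cardFactors a ≡ s [MOD 2] ∧
          ArithmeticFunction.cardFactors (m - a) ≡ t [MOD 2])).card : ℝ) < δ * H)).card : ℝ) := by
      exact_mod_cast hle
    linarith)
  refine ⟨N0, fun M hM => ?_⟩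
  have hfin : {N : ℕ | 1 ≤ N ∧ N ≤ M ∧ Pr N}.Finite :=
    (Set.finite_Icc 1 M).subset (fun n hn => ⟨hn.1, hn.2.1⟩)
  have h1 := hN0 M hM hfin.toFinset (by
    intro n hn
    rw [Set.Finite.mem_toFinset] at hn
    exact hn)
  have h2 : Set.ncard {N : ℕ | 1 ≤ N ∧ N ≤ M ∧ Pr N} = hfin.toFinset.card :=
    Set.ncard_eq_toFinset_card _ hfin
  have h3 : ((Set.ncard {N : ℕ | 1 ≤ N ∧ N ≤ M ∧ Pr N} : ℕ) : ℝ) ≤ η * M := by
    rw [h2]
    linarith
  exact h3

end Pool.Agent.MRE
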