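import Pool.Agent.MR.ZClass
import Pool.Agent.MR.AMvt

set_option autoImplicit false

/-!
# Matomäki–Radziwiłł at fixed window length, for sums over windows
-/

open Finset MeasureTheory

namespace Pool.Agent.MRE

open Pool.Agent.MR

/-- telescoping bound. -/
private theorem tele (R m : ℕ) (hR : 2 ≤ R) :
    ∑ i ∈ range m, 1 / ((R : ℝ) + i) ^ 2 ≤ 1 / ((R : ℝ) - 1) := by
  have hR' : (2 : ℝ) ≤ R := by exact_mod_cast hR
  have h : ∀ m : ℕ, ∑ i ∈ range m, 1 / ((R : ℝ) + i) ^ 2 ≤ 1 / ((R : ℝ) - 1) - 1 / ((R : ℝ) + m - 1) := by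
    intro m
    induction m with
    | zero => simp
    | succ m ih =>
      rw [sum_range_succ]
      have hm : (0 : ℝ) ≤ m := Nat.cast_nonneg m
      have e : 1 / ((R : ℝ) + m) ^ 2 ≤ 1 / ((R : ℝ) + m - 1) - 1 / ((R : ℝ) + (m + 1 : ℕ) - 1) := by
        push_cast
        rw [show (R : ℝ) + (m + 1) - 1 = R + m by ring]
        rw [div_sub_div _ _ (by linarith) (by linarith), div_le_div_iff₀ (by positivity) (by nlinarith)]
        nlinarith
      linarith
  have h1 := h m
  have hm : (0 : ℝ) ≤ m := Nat.cast_nonneg m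
  have : 0 ≤ 1 / ((R : ℝ) + m - 1) := by
    apply div_nonneg zero_le_one; linarith
  linarith

private theorem K_upper (h N : ℝ) (hh : 0 < h) (hN : 0 < N) (x r : ℝ) (hr : 0 < r)
    (hx : r / (3 * N) ≤ |x|) :
    Real.exp (-x ^ 2 / (2 * (h / (9 / 10 * N)) ^ 2)) ≤ 24 * h ^ 2 * (1 / r ^ 2) := by
  have h1 : (r / (3 * N)) ^ 2 ≤ x ^ 2 := by
    rw [← sq_abs x]
    exact pow_le_pow_left₀ (by positivity) hx 2
  set y : ℝ := x ^ 2 / (2 * (h / (9 / 10 * N)) ^ 2) with hy
  have hden : 0 < 2 * (h / (9 / 10 * N)) ^ 2 := by positivity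
  have hy1 : r ^ 2 / (24 * h ^ 2) ≤ y := by
    rw [hy, le_div_iff₀ hden]
    refine le_trans ?_ h1
    have e1 : r ^ 2 / (24 * h ^ 2) * (2 * (h / (9 / 10 * N)) ^ 2) = (r / (3 * N)) ^ 2 * (75 / 81) := by
      field_simp
      ring
    rw [e1]
    have : 0 ≤ (r / (3 * N)) ^ 2 := by positivity
    linarith
  have hy0 : 0 < y := lt_of_lt_of_le (by positivity) hy1
  have e1 : Real.exp (-x ^ 2 / (2 * (h / (9 / 10 * N)) ^ 2)) = (Real.exp y)⁻¹ := by
    rw [← Real.exp_neg]
    congr 1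
    rw [hy]
    ring
  rw [e1]
  have h2 : y ≤ Real.exp y := by
    have := Real.add_one_le_exp y
    linarith
  calc (Real.exp y)⁻¹ ≤ (r ^ 2 / (24 * h ^ 2))⁻¹ := by
        apply inv_anti₀ (by positivity)
        linarith
    _ = 24 * h ^ 2 * (1 / r ^ 2) := by
        rw [inv_div]; ring

/-- the Gaussian -/
noncomputable def G (θ x : ℝ) : ℝ := Real.exp (-x ^ 2 / (2 * θ ^ 2))

theorem G_pos (θ x : ℝ) : 0 < G θ x := Real.exp_pos _

theorem G_eq (θ x : ℝ) : G θ x = Real.exp (-(1 / (2 * θ ^ 2)) * x ^ 2) := by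
  unfold G
  congr 1
  ring

theorem integrable_G (θ : ℝ) (hθ : 0 < θ) : Integrable (G θ) := by
  have := integrable_exp_neg_mul_sq (b := 1 / (2 * θ ^ 2)) (by positivity)
  refine this.congr (Filter.Eventually.of_forall fun x => ?_)
  exact (G_eq θ x).symm

theorem integral_G (θ : ℝ) (hθ : 0 < θ) : ∫ x, G θ x = θ * √(2 * Real.pi) := by
  have h1 : (∫ x, G θ x) = ∫ x : ℝ, Real.exp (-(1 / (2 * θ ^ 2)) * x ^ 2) := by
    congr 1
    funext x
    exact G_eq θ x
  rw [h1, integral_gaussian]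
  rw [show Real.pi / (1 / (2 * θ ^ 2)) = θ ^ 2 * (2 * Real.pi) by field_simp]
  rw [Real.sqrt_mul (by positivity), Real.sqrt_sq hθ.le]

theorem integral_G_ge (θ : ℝ) (hθ : 0 < θ) : 2 * θ ≤ ∫ x, G θ x := by
  rw [integral_G θ hθ]
  have h1 : (2 : ℝ) ≤ √(2 * Real.pi) := by
    apply Real.le_sqrt_of_sq_le
    have := Real.pi_gt_three
    linarith
  nlinarith

theorem integral_G_le (θ : ℝ) (hθ : 0 < θ) : ∫ x, G θ x ≤ 3 * θ := by
  rw [integral_G θ hθ]
  have h1 : √(2 * Real.pi) ≤ 3 := by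
    rw [Real.sqrt_le_left (by norm_num)]
    have := Real.pi_lt_four
    linarith
  nlinarith

theorem integrable_G_sub (θ a : ℝ) (hθ : 0 < θ) : Integrable (fun u => G θ (u - a)) :=
  (integrable_G θ hθ).comp_sub_right a

theorem integral_G_sub (θ a : ℝ) : ∫ u, G θ (u - a) = ∫ x, G θ x :=
  integral_sub_right_eq_self (G θ) a

/-- tail bound: if `[α, β) ⊇ [a - X, a + X)`. -/
theorem tail_G (θ a X α β : ℝ) (hθ : 0 < θ) (hX : 0 < X) (h1 : α ≤ a - X) (h2 : a + X ≤ β) :
    (∫ x, G θ x) - ∫ u in Set.Ico α β, G θ (u - a) ≤ 16 * θ ^ 2 / X := by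
  have hI := integrable_G_sub θ a hθ
  have e1 : (∫ x, G θ x) = (∫ u in Set.Ico α β, G θ (u - a)) + ∫ u in (Set.Ico α β)ᶜ, G θ (u - a) := by
    rw [integral_add_compl measurableSet_Ico hI, integral_G_sub]
  rw [e1, add_sub_cancel_left]
  -- comparison function
  have hcau : Integrable (fun x : ℝ => (1 + x ^ 2)⁻¹) := integrable_inv_one_add_sq
  have hcomp : Integrable (fun u : ℝ => 4 * θ ^ 2 / X ^ 2 * (1 + ((u - a) / X) ^ 2)⁻¹) := by
    apply Integrable.const_mul
    have h3 : Integrable (fun u : ℝ => (1 + (u / X) ^ 2)⁻¹) := by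
      have := hcau.comp_div hX.ne'
      simpa using this
    exact h3.comp_sub_right a
  have hval : ∫ u : ℝ, 4 * θ ^ 2 / X ^ 2 * (1 + ((u - a) / X) ^ 2)⁻¹ = 4 * θ ^ 2 / X * Real.pi := by
    rw [integral_const_mul]
    have h4 : ∫ u : ℝ, (1 + ((u - a) / X) ^ 2)⁻¹ = X * Real.pi := by
      rw [integral_sub_right_eq_self (fun u : ℝ => (1 + (u / X) ^ 2)⁻¹) a]
      rw [Measure.integral_comp_div (fun u : ℝ => (1 + u ^ 2)⁻¹) X]
      rw [integral_univ_inv_one_add_sq, smul_eq_mul, abs_of_pos hX]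
    rw [h4]
    field_simp
  have hle : ∫ u in (Set.Ico α β)ᶜ, G θ (u - a)
      ≤ ∫ u in (Set.Ico α β)ᶜ, 4 * θ ^ 2 / X ^ 2 * (1 + ((u - a) / X) ^ 2)⁻¹ := by
    apply setIntegral_mono_on hI.integrableOn hcomp.integrableOn measurableSet_Ico.compl
    intro u hu
    have hu' : X ≤ |u - a| := by
      by_contra hcon
      push Not at hcon
      rw [abs_lt] at hcon
      apply hu
      exact ⟨by linarith, by linarith⟩
    have h5 : X ^ 2 ≤ (u - a) ^ 2 := by
      rw [← sq_abs (u - a)]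
      exact pow_le_pow_left₀ hX.le hu' 2
    have h6 : 0 < (u - a) ^ 2 := lt_of_lt_of_le (by positivity) h5
    have h7 : G θ (u - a) ≤ 2 * θ ^ 2 / (u - a) ^ 2 := by
      unfold G
      have e2 : Real.exp (-(u - a) ^ 2 / (2 * θ ^ 2)) = (Real.exp ((u - a) ^ 2 / (2 * θ ^ 2)))⁻¹ := by
        rw [← Real.exp_neg]
        congr 1
        ring
      rw [e2, inv_le_comm₀ (Real.exp_pos _) (by positivity), inv_div]
      have := Real.add_one_le_exp ((u - a) ^ 2 / (2 * θ ^ 2))
      linarith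
    refine h7.trans ?_
    have e3 : 4 * θ ^ 2 / X ^ 2 * (1 + ((u - a) / X) ^ 2)⁻¹ = 4 * θ ^ 2 / (X ^ 2 + (u - a) ^ 2) := by
      field_simp
    rw [e3, div_le_div_iff₀ h6 (by positivity)]
    have : 0 < θ ^ 2 := by positivity
    nlinarith
  have hle2 : ∫ u in (Set.Ico α β)ᶜ, 4 * θ ^ 2 / X ^ 2 * (1 + ((u - a) / X) ^ 2)⁻¹
      ≤ ∫ u : ℝ, 4 * θ ^ 2 / X ^ 2 * (1 + ((u - a) / X) ^ 2)⁻¹ := by
    apply setIntegral_le_integral hcomp
    exact Filter.Eventually.of_forall (fun u => by positivity)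
  rw [hval] at hle2
  have hpi := Real.pi_lt_four
  have h8 : 4 * θ ^ 2 / X * Real.pi ≤ 16 * θ ^ 2 / X := by
    have : 0 < 4 * θ ^ 2 / X := by positivity
    calc 4 * θ ^ 2 / X * Real.pi ≤ 4 * θ ^ 2 / X * 4 := by nlinarith
      _ = 16 * θ ^ 2 / X := by ring
  linarith

theorem tail_G' (θ a X α β : ℝ) (hθ : 0 < θ) (hX : 0 < X) (h1 : α ≤ a - X) (h2 : a + X ≤ β) :
    (∫ x, G θ x) - ∫ u in α..β, G θ (u - a) ≤ 16 * θ ^ 2 / X := by
  rw [intervalIntegral.integral_of_le (by linarith), ← integral_Ico_eq_integral_Ioc]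
  exact tail_G θ a X α β hθ hX h1 h2

theorem Aw_nonneg (θ a α β : ℝ) (hαβ : α ≤ β) : 0 ≤ ∫ u in α..β, G θ (u - a) := by
  apply intervalIntegral.integral_nonneg hαβ
  intro u _
  exact (G_pos _ _).le

theorem Aw_le (θ a α β : ℝ) (hθ : 0 < θ) (hαβ : α ≤ β) :
    ∫ u in α..β, G θ (u - a) ≤ ∫ x, G θ x := by
  rw [intervalIntegral.integral_of_le hαβ, ← integral_G_sub θ a]
  apply setIntegral_le_integral (integrable_G_sub θ a hθ)
  exact Filter.Eventually.of_forall (fun u => (G_pos _ _).le)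

theorem Aw_le_const (θ a α β C : ℝ) (hθ : 0 < θ) (hαβ : α ≤ β)
    (hC : ∀ u ∈ Set.Icc α β, G θ (u - a) ≤ C) :
    ∫ u in α..β, G θ (u - a) ≤ (β - α) * C := by
  calc ∫ u in α..β, G θ (u - a) ≤ ∫ _u in α..β, C := by
        apply intervalIntegral.integral_mono_on hαβ
        · exact (integrable_G_sub θ a hθ).intervalIntegrable
        · exact intervalIntegrable_const
        · exact hC
    _ = (β - α) * C := by
        rw [intervalIntegral.integral_const, smul_eq_mul]

private theorem sum_union_le' (f : ℕ → ℝ) (hf : ∀ n, 0 ≤ f n) (S T : Finset ℕ) :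
    ∑ n ∈ S ∪ T, f n ≤ ∑ n ∈ S, f n + ∑ n ∈ T, f n := by
  have := sum_union_inter (s₁ := S) (s₂ := T) (f := f)
  have h2 : 0 ≤ ∑ n ∈ S ∩ T, f n := sum_nonneg (fun n _ => hf n)
  linarith

/-- The window estimate. -/
theorem window_err (c : ℕ → ℂ) (hc : ∀ n, ‖c n‖ ≤ 1) (h : ℝ) (hh : 0 < h) (R H : ℕ)
    (hR : 2 ≤ R) (hH : 2 * R ≤ H) (N : ℝ) (hN : 1 ≤ N) (hHN : (H : ℝ) ≤ N / 2)
    (w : ℕ) (hw1 : N ≤ w) (hw2 : (w : ℝ) ≤ 2 * N) :
    (∫ x, G (h / (9 / 10 * N)) x) * ‖∑ n ∈ Ico w (w + H), c n‖ ≤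
      (∫ u in Real.log w..Real.log ((w + H : ℕ) : ℝ), ‖∑ n ∈ blk (9 / 10 * N), c n *
        ((G (h / (9 / 10 * N)) (u - Real.log n) : ℝ) : ℂ)‖) +
      ((H : ℝ) * (48 * (h / (9 / 10 * N)) ^ 2 * N / R) + 12 * R * (h / (9 / 10 * N))
        + 48 * h ^ 2 * (1 / ((R : ℝ) - 1)) * (H / N)) := by
  classical
  set θ : ℝ := h / (9 / 10 * N) with hθ
  have hN0 : 0 < N := by linarith
  have hθ0 : 0 < θ := by positivity
  have hRr : (2 : ℝ) ≤ R := by exact_mod_cast hR
  have hHr : 2 * (R : ℝ) ≤ H := by exact_mod_cast hH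
  have hw0 : (0 : ℝ) < w := by linarith
  have hwH0 : (0 : ℝ) < ((w + H : ℕ) : ℝ) := by push_cast; linarith
  set α : ℝ := Real.log w with hα
  set β : ℝ := Real.log ((w + H : ℕ) : ℝ) with hβ
  have hαβ : α ≤ β := by
    apply Real.log_le_log hw0
    push_cast
    linarith
  have hlen : β - α ≤ H / N := by
    rw [hα, hβ, ← Real.log_div hwH0.ne' hw0.ne']
    have h1 := Real.log_le_sub_one_of_pos (show 0 < ((w + H : ℕ) : ℝ) / w by positivity)
    refine h1.trans ?_
    have h2 : ((w + H : ℕ) : ℝ) / w - 1 = H / w := by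
      push_cast
      field_simp
      ring
    rw [h2]
    apply div_le_div_of_nonneg_left (by positivity) hN0 hw1
  set A : ℝ := ∫ x, G θ x with hA
  have hA3 : A ≤ 3 * θ := integral_G_le θ hθ0
  have hA0 : 0 ≤ A := by
    have := integral_G_ge θ hθ0
    linarith
  set a : ℕ → ℝ := fun n => ∫ u in α..β, G θ (u - Real.log n) with ha
  have ha0 : ∀ n, 0 ≤ a n := fun n => Aw_nonneg θ _ α β hαβ
  have haA : ∀ n, a n ≤ A := fun n => Aw_le θ _ α β hθ0 hαβ
  set B : Finset ℕ := blk (9 / 10 * N) with hB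
  set I : Finset ℕ := Ico w (w + H) with hI
  have hIB : I ⊆ B := by
    intro n hn
    rw [hI, mem_Ico] at hn
    rw [hB]
    unfold blk
    rw [mem_Ioc]
    have h1 : (w : ℝ) ≤ n := by exact_mod_cast hn.1
    have h2 : (n : ℝ) ≤ w + H := by exact_mod_cast hn.2.le
    constructor
    · rw [Nat.floor_lt (by positivity)]
      linarith
    · apply Nat.le_floor
      linarith
  -- the integral of the sum
  have hint : ∫ u in α..β, ∑ n ∈ B, c n * ((G θ (u - Real.log n) : ℝ) : ℂ)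
      = ∑ n ∈ B, c n * ((a n : ℝ) : ℂ) := by
    rw [intervalIntegral.integral_finsetSum]
    · apply sum_congr rfl
      intro n _
      rw [intervalIntegral.integral_const_mul, intervalIntegral.integral_ofReal]
    · intro n _
      apply IntervalIntegrable.const_mul
      exact ((integrable_G_sub θ _ hθ0).ofReal).intervalIntegrable
  have hnormint : ‖∑ n ∈ B, c n * ((a n : ℝ) : ℂ)‖ ≤
      ∫ u in α..β, ‖∑ n ∈ B, c n * ((G θ (u - Real.log n) : ℝ) : ℂ)‖ := by
    rw [← hint]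
    exact intervalIntegral.norm_integral_le_integral_norm hαβ
  -- in-window error
  have hin : ∑ n ∈ I, (A - a n) ≤ (H : ℝ) * (48 * θ ^ 2 * N / R) + 6 * R * θ := by
    have hpt : ∀ n ∈ I, A - a n ≤ 48 * θ ^ 2 * N / R +
        (if n ∈ Ico w (w + R) ∪ Ico (w + H - R) (w + H) then 3 * θ else 0) := by
      intro n hn
      rw [hI, mem_Ico] at hn
      split_ifs with hcase
      · have h1 := ha0 n
        have h2 : 0 ≤ 48 * θ ^ 2 * N / R := by positivity
        linarith
      · rw [mem_union, mem_Ico, mem_Ico, not_or] at hcase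
        have hn1 : w + R ≤ n := by omega
        have hn2 : n + R ≤ w + H := by omega
        have hn1' : (w : ℝ) + R ≤ n := by exact_mod_cast hn1
        have hn2' : (n : ℝ) + R ≤ ((w + H : ℕ) : ℝ) := by exact_mod_cast hn2
        have hn0 : (0 : ℝ) < n := by linarith
        have hup : ((w + H : ℕ) : ℝ) ≤ 3 * N := by push_cast; linarith
        have ht1 : α ≤ Real.log n - R / (3 * N) := by
          have h1 : 1 - ((n : ℝ) / w)⁻¹ ≤ Real.log ((n : ℝ) / w) :=
            Real.one_sub_inv_le_log_of_pos (by positivity)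
          rw [Real.log_div hn0.ne' hw0.ne', inv_div] at h1
          have h2 : (1 : ℝ) - w / n = (n - w) / n := by field_simp
          rw [h2] at h1
          have h3 : (R : ℝ) / (3 * N) ≤ (n - w) / n := by
            apply div_le_div₀ (by linarith) (by linarith) hn0
            push_cast at hn2' hup
            linarith
          rw [hα]
          linarith
        have ht2 : Real.log n + R / (3 * N) ≤ β := by
          have h1 : 1 - (((w + H : ℕ) : ℝ) / n)⁻¹ ≤ Real.log (((w + H : ℕ) : ℝ) / n) :=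
            Real.one_sub_inv_le_log_of_pos (by positivity)
          rw [Real.log_div hwH0.ne' hn0.ne', inv_div] at h1
          have h2 : (1 : ℝ) - n / ((w + H : ℕ) : ℝ) = (((w + H : ℕ) : ℝ) - n) / ((w + H : ℕ) : ℝ) := by
            field_simp
          rw [h2] at h1
          have h3 : (R : ℝ) / (3 * N) ≤ (((w + H : ℕ) : ℝ) - n) / ((w + H : ℕ) : ℝ) := by
            apply div_le_div₀ (by linarith) (by linarith) hwH0 hup
          rw [hβ]
          linarith
        have h5 := tail_G' θ (Real.log n) (R / (3 * N)) α β hθ0 (by positivity) ht1 ht2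
        have h6 : 16 * θ ^ 2 / (R / (3 * N)) = 48 * θ ^ 2 * N / R := by
          field_simp
          ring
        rw [h6] at h5
        linarith
    refine (sum_le_sum hpt).trans ?_
    rw [sum_add_distrib, sum_const, nsmul_eq_mul, hI, Nat.card_Ico, add_tsub_cancel_left,
      ← sum_filter, sum_const, nsmul_eq_mul]
    have hcd : ((Ico w (w + H)).filter
        (fun n => n ∈ Ico w (w + R) ∪ Ico (w + H - R) (w + H))).card ≤ 2 * R := by
      calc _ ≤ (Ico w (w + R) ∪ Ico (w + H - R) (w + H)).card := by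
            apply card_le_card
            intro n hn
            rw [mem_filter] at hn
            exact hn.2
        _ ≤ (Ico w (w + R)).card + (Ico (w + H - R) (w + H)).card := card_union_le _ _
        _ ≤ 2 * R := by
            rw [Nat.card_Ico, Nat.card_Ico]
            omega
    have hcd' : (((Ico w (w + H)).filter
        (fun n => n ∈ Ico w (w + R) ∪ Ico (w + H - R) (w + H))).card : ℝ) ≤ 2 * R := by
      exact_mod_cast hcd
    have h7 := mul_le_mul_of_nonneg_right hcd' (show 0 ≤ 3 * θ by positivity)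
    linarith
  -- out-of-window error
  have hfar : ∀ n : ℕ, ∀ r : ℝ, 0 < r → (∀ u ∈ Set.Icc α β, r / (3 * N) ≤ |u - Real.log n|) →
      a n ≤ H / N * (24 * h ^ 2 * (1 / r ^ 2)) := by
    intro n r hr hu
    have h1 := Aw_le_const θ (Real.log n) α β (24 * h ^ 2 * (1 / r ^ 2)) hθ0 hαβ (by
      intro u huI
      exact K_upper h N hh hN0 (u - Real.log n) r hr (hu u huI))
    refine h1.trans ?_
    apply mul_le_mul_of_nonneg_right hlen (by positivity)
  have hout : ∑ n ∈ B \ I, a n ≤ 6 * R * θ + 48 * h ^ 2 * (1 / ((R : ℝ) - 1)) * (H / N) := by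
    have hsub : B \ I ⊆ (((range (w - R)).filter (fun n => 1 ≤ n)) ∪
        (Ico (w + H + R) (⌊3 * (9 / 10 * N)⌋₊ + 1))) ∪ (Ico (w - R) w ∪ Ico (w + H) (w + H + R)) := by
      intro n hn
      rw [mem_sdiff, hB, hI, mem_Ico] at hn
      unfold blk at hn
      rw [mem_Ioc] at hn
      simp only [mem_union, mem_filter, mem_range, mem_Ico]
      omega
    have hleft : ∑ n ∈ (range (w - R)).filter (fun n => 1 ≤ n), a n
        ≤ H / N * (24 * h ^ 2 * (1 / ((R : ℝ) - 1))) := by
      have e1 : ∀ n ∈ (range (w - R)).filter (fun n => 1 ≤ n),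
          a n ≤ H / N * (24 * h ^ 2 * (1 / ((R : ℝ) + ((w - R - 1 - n : ℕ) : ℝ)) ^ 2)) := by
        intro n hn
        rw [mem_filter, mem_range] at hn
        apply hfar n
        · positivity
        · intro u hu
          have hn0 : (0 : ℝ) < n := by exact_mod_cast hn.2
          have hnw : (n : ℝ) ≤ w := by exact_mod_cast (by omega : n ≤ w)
          have h1 : 1 - ((w : ℝ) / n)⁻¹ ≤ Real.log ((w : ℝ) / n) :=
            Real.one_sub_inv_le_log_of_pos (by positivity)
          rw [Real.log_div hw0.ne' hn0.ne', inv_div] at h1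
          have h2 : (1 : ℝ) - n / w = (w - n) / w := by field_simp
          rw [h2] at h1
          have hu1 := hu.1
          rw [hα] at hu1
          have hln : Real.log n ≤ Real.log w := Real.log_le_log hn0 hnw
          rw [abs_of_nonneg (by linarith)]
          have hcast : ((w - R - 1 - n : ℕ) : ℝ) ≤ w - R - n := by
            have : w - R - 1 - n + R + n ≤ w := by omega
            have : ((w - R - 1 - n + R + n : ℕ) : ℝ) ≤ w := by exact_mod_cast this
            push_cast at this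
            linarith
          have h3 : ((R : ℝ) + ((w - R - 1 - n : ℕ) : ℝ)) / (3 * N) ≤ (w - n) / w := by
            apply div_le_div₀ (by linarith) (by linarith) hw0 (by linarith)
          linarith
      refine (sum_le_sum e1).trans ?_
      refine (sum_le_sum_of_subset_of_nonneg (filter_subset _ _) (fun _ _ _ => by positivity)).trans ?_
      rw [← mul_sum, ← mul_sum]
      have e2 : ∑ i ∈ range (w - R), 1 / ((R : ℝ) + ((w - R - 1 - i : ℕ) : ℝ)) ^ 2
          = ∑ i ∈ range (w - R), 1 / ((R : ℝ) + (i : ℝ)) ^ 2 :=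
        sum_range_reflect (fun i => 1 / ((R : ℝ) + (i : ℝ)) ^ 2) (w - R)
      rw [e2]
      have := tele R (w - R) hR
      gcongr
    have hright : ∑ n ∈ Ico (w + H + R) (⌊3 * (9 / 10 * N)⌋₊ + 1), a n
        ≤ H / N * (24 * h ^ 2 * (1 / ((R : ℝ) - 1))) := by
      rw [sum_Ico_eq_sum_range]
      have e1 : ∀ i ∈ range (⌊3 * (9 / 10 * N)⌋₊ + 1 - (w + H + R)),
          a (w + H + R + i) ≤ H / N * (24 * h ^ 2 * (1 / ((R : ℝ) + (i : ℝ)) ^ 2)) := by
        intro i hi
        rw [mem_range] at hi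
        have hup : ((w + H + R + i : ℕ) : ℝ) ≤ 27 / 10 * N := by
          have h1 : w + H + R + i ≤ ⌊3 * (9 / 10 * N)⌋₊ := by omega
          have h2 : ((w + H + R + i : ℕ) : ℝ) ≤ (⌊3 * (9 / 10 * N)⌋₊ : ℝ) := by exact_mod_cast h1
          have h3 := Nat.floor_le (show 0 ≤ 3 * (9 / 10 * N) by positivity)
          linarith
        have hn0 : 0 < ((w + H + R + i : ℕ) : ℝ) := by
          have : ((w + H : ℕ) : ℝ) ≤ ((w + H + R + i : ℕ) : ℝ) := by exact_mod_cast (by omega)
          linarith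
        apply hfar
        · positivity
        · intro u hu
          have h1 : 1 - (((w + H + R + i : ℕ) : ℝ) / ((w + H : ℕ) : ℝ))⁻¹
              ≤ Real.log (((w + H + R + i : ℕ) : ℝ) / ((w + H : ℕ) : ℝ)) :=
            Real.one_sub_inv_le_log_of_pos (by positivity)
          rw [Real.log_div hn0.ne' hwH0.ne', inv_div] at h1
          have h2 : (1 : ℝ) - ((w + H : ℕ) : ℝ) / ((w + H + R + i : ℕ) : ℝ)
              = ((R : ℝ) + i) / ((w + H + R + i : ℕ) : ℝ) := by
            rw [eq_div_iff hn0.ne', sub_mul, div_mul_cancel₀ _ hn0.ne']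
            push_cast
            ring
          rw [h2] at h1
          have hu2 := hu.2
          rw [hβ] at hu2
          have hln : Real.log ((w + H : ℕ) : ℝ) ≤ Real.log ((w + H + R + i : ℕ) : ℝ) := by
            apply Real.log_le_log hwH0
            exact_mod_cast (by omega : w + H ≤ w + H + R + i)
          rw [abs_of_nonpos (by linarith)]
          have h3 : ((R : ℝ) + i) / (3 * N) ≤ ((R : ℝ) + i) / ((w + H + R + i : ℕ) : ℝ) := by
            apply div_le_div_of_nonneg_left (by positivity) hn0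
            linarith
          linarith
      refine (sum_le_sum e1).trans ?_
      rw [← mul_sum, ← mul_sum]
      have := tele R (⌊3 * (9 / 10 * N)⌋₊ + 1 - (w + H + R)) hR
      gcongr
    have hnear : ∑ n ∈ Ico (w - R) w ∪ Ico (w + H) (w + H + R), a n ≤ 6 * R * θ := by
      calc ∑ n ∈ Ico (w - R) w ∪ Ico (w + H) (w + H + R), a n
          ≤ ∑ n ∈ Ico (w - R) w ∪ Ico (w + H) (w + H + R), 3 * θ :=
            sum_le_sum (fun n _ => (haA n).trans hA3)
        _ = ((Ico (w - R) w ∪ Ico (w + H) (w + H + R)).card : ℝ) * (3 * θ) := by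
            rw [sum_const, nsmul_eq_mul]
        _ ≤ (2 * R) * (3 * θ) := by
            have h1 : (Ico (w - R) w ∪ Ico (w + H) (w + H + R)).card ≤ 2 * R := by
              refine (card_union_le _ _).trans ?_
              rw [Nat.card_Ico, Nat.card_Ico]
              omega
            have h2 : ((Ico (w - R) w ∪ Ico (w + H) (w + H + R)).card : ℝ) ≤ 2 * R := by
              exact_mod_cast h1
            apply mul_le_mul_of_nonneg_right h2 (by positivity)
        _ = 6 * R * θ := by ring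
    have h8 := sum_le_sum_of_subset_of_nonneg hsub (fun n _ _ => ha0 n)
    have h9 := sum_union_le' a ha0 (((range (w - R)).filter (fun n => 1 ≤ n)) ∪
        (Ico (w + H + R) (⌊3 * (9 / 10 * N)⌋₊ + 1))) (Ico (w - R) w ∪ Ico (w + H) (w + H + R))
    have h10 := sum_union_le' a ha0 ((range (w - R)).filter (fun n => 1 ≤ n))
        (Ico (w + H + R) (⌊3 * (9 / 10 * N)⌋₊ + 1))
    have e : 48 * h ^ 2 * (1 / ((R : ℝ) - 1)) * (H / N) =
      H / N * (24 * h ^ 2 * (1 / ((R : ℝ) - 1))) + H / N * (24 * h ^ 2 * (1 / ((R : ℝ) - 1))) := by ring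
    linarith
  -- conclusion
  have hid : ((A : ℝ) : ℂ) * ∑ n ∈ I, c n = ∑ n ∈ B, c n * ((a n : ℝ) : ℂ)
      + ∑ n ∈ I, c n * ((A - a n : ℝ) : ℂ) - ∑ n ∈ B \ I, c n * ((a n : ℝ) : ℂ) := by
    rw [← sum_sdiff hIB, mul_sum]
    have : ∑ n ∈ I, ((A : ℝ) : ℂ) * c n = ∑ n ∈ I, c n * ((a n : ℝ) : ℂ)
      + ∑ n ∈ I, c n * ((A - a n : ℝ) : ℂ) := by
      rw [← sum_add_distrib]
      apply sum_congr rfl
      intro n _
      push_cast
      ring
    rw [this]
    ring
  have hn1 : A * ‖∑ n ∈ I, c n‖ = ‖((A : ℝ) : ℂ) * ∑ n ∈ I, c n‖ := by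
    rw [norm_mul, Complex.norm_real, Real.norm_of_nonneg hA0]
  rw [hn1, hid]
  have hn2 : ‖∑ n ∈ I, c n * ((A - a n : ℝ) : ℂ)‖ ≤ ∑ n ∈ I, (A - a n) := by
    refine (norm_sum_le _ _).trans (sum_le_sum fun n _ => ?_)
    rw [norm_mul, Complex.norm_real, Real.norm_of_nonneg (by linarith [haA n])]
    have := hc n
    have h3 : 0 ≤ A - a n := by linarith [haA n]
    nlinarith
  have hn3 : ‖∑ n ∈ B \ I, c n * ((a n : ℝ) : ℂ)‖ ≤ ∑ n ∈ B \ I, a n := by
    refine (norm_sum_le _ _).trans (sum_le_sum fun n _ => ?_)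
    rw [norm_mul, Complex.norm_real, Real.norm_of_nonneg (ha0 n)]
    have := hc n
    have h3 := ha0 n
    nlinarith
  have hn4 := norm_sub_le (∑ n ∈ B, c n * ((a n : ℝ) : ℂ) + ∑ n ∈ I, c n * ((A - a n : ℝ) : ℂ))
    (∑ n ∈ B \ I, c n * ((a n : ℝ) : ℂ))
  have hn5 := norm_add_le (∑ n ∈ B, c n * ((a n : ℝ) : ℂ)) (∑ n ∈ I, c n * ((A - a n : ℝ) : ℂ))
  linarith

/-- Matomäki–Radziwiłł at fixed window length, for window sums on the class `1` modulo `W`. -/
theorem mr_window (g : ℕ → ℂ) (hg : ∀ n, ‖g n‖ ≤ 1) (W : ℕ) (hW : 0 < W)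
    (hcm : ∀ χ : DirichletCharacter ℂ W, CM (fun n => g n * χ n))
    (hpw : ∀ χ : DirichletCharacter ℂ W, PW (fun n => g n * χ n)) (ε : ℝ) (hε : 0 < ε) :
    ∃ H0 : ℕ, ∀ H : ℕ, H0 ≤ H → ∃ N0 : ℝ, ∀ N : ℝ, N0 ≤ N →
      ∑ w ∈ Icc ⌈N⌉₊ ⌊2 * N⌋₊,
        ‖∑ n ∈ Ico w (w + H), (if n ≡ 1 [MOD W] then g n else 0)‖ ≤ ε * H * N := by
  classical
  set e : ℝ := ε / 2 with he
  have he0 : 0 < e := by positivity
  obtain ⟨h, hh1, hmr⟩ := mr_classz g W hW hcm hpw (e ^ 2) (by positivity)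
  obtain ⟨N1, hN1, hmr⟩ := hmr h le_rfl
  have hh0 : 0 < h := by linarith
  set R : ℕ := ⌈400 * h / ε⌉₊ + 2 with hR
  have hRle : 400 * h / ε + 2 ≤ R := by
    rw [hR]
    push_cast
    have := Nat.le_ceil (400 * h / ε)
    linarith
  have hR2 : 2 ≤ R := by omega
  have hRr : (2 : ℝ) ≤ R := by exact_mod_cast hR2
  refine ⟨⌈48 * R / ε⌉₊ + 2 * R, fun H hH => ?_⟩
  have hH1 : 48 * R / ε ≤ H := by
    have h1 := Nat.le_ceil (48 * R / ε)
    have h2 : ((⌈48 * R / ε⌉₊ + 2 * R : ℕ) : ℝ) ≤ H := by exact_mod_cast hH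
    push_cast at h2
    linarith
  have hH2 : 2 * R ≤ H := by omega
  have hH0 : (0 : ℝ) < H := by
    have : (0 : ℝ) < 48 * R / ε := by positivity
    linarith
  refine ⟨max (2 * N1) (4 * H + 4), fun N hN => ?_⟩
  have hNa : 2 * N1 ≤ N := (le_max_left _ _).trans hN
  have hNb : 4 * (H : ℝ) + 4 ≤ N := (le_max_right _ _).trans hN
  have hN1' : 1 ≤ N := by linarith
  have hN0 : 0 < N := by linarith
  set M : ℝ := 9 / 10 * N with hM
  have hM0 : 0 < M := by positivity
  set θ : ℝ := h / M with hθ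
  have hθ0 : 0 < θ := by positivity
  set c : ℕ → ℂ := fun n => if n ≡ 1 [MOD W] then g n else 0 with hc
  have hcn : ∀ n, ‖c n‖ ≤ 1 := by
    intro n
    simp only [hc]
    split_ifs
    · exact hg n
    · simp
  have hpars := gauss_parseval (blk M) (by
    intro n hn
    unfold blk at hn
    rw [mem_Ioc] at hn
    omega) c θ hθ0
  have hint := integrable_gauss (blk M) c θ hθ0
  have hmrN := hmr M (by rw [hM]; linarith)
  have hup : ∫ u : ℝ, ‖∑ n ∈ blk M, c n * (Real.exp (-(u - Real.log n) ^ 2 / (2 * θ ^ 2)) : ℂ)‖ ^ 2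
      ≤ e ^ 2 * h ^ 2 := by
    rw [hpars]
    have e1 : 1 / θ = M / h := by rw [hθ]; field_simp
    rw [e1]
    calc θ ^ 2 * ∫ t, ‖dp (blk M) c t‖ ^ 2 * gw (M / h) t
        ≤ θ ^ 2 * (e ^ 2 * M ^ 2) := by
          apply mul_le_mul_of_nonneg_left hmrN (by positivity)
      _ = e ^ 2 * h ^ 2 := by
          rw [hθ]; field_simp
  set s : ℝ → ℝ := fun u => ‖∑ n ∈ blk M, c n * ((G θ (u - Real.log n) : ℝ) : ℂ)‖ with hs
  have hs0 : ∀ u, 0 ≤ s u := fun u => norm_nonneg _
  have hsint : Integrable s := by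
    apply Integrable.norm
    apply integrable_finsetSum
    intro n _
    apply Integrable.const_mul
    exact (integrable_G_sub θ _ hθ0).ofReal
  have hs2int : Integrable (fun u => s u ^ 2) := by
    refine hint.congr (Filter.Eventually.of_forall fun u => ?_)
    simp only [hs, G]
  have hs2 : ∫ u, s u ^ 2 ≤ e ^ 2 * h ^ 2 := by
    refine le_trans (le_of_eq ?_) hup
    congr 1
  -- the unit pieces
  set t : ℕ → ℝ := fun v => ∫ u in Real.log (v : ℝ)..Real.log ((v + 1 : ℕ) : ℝ), s u with ht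
  have hmono : ∀ v : ℕ, Real.log (v : ℝ) ≤ Real.log ((v + 1 : ℕ) : ℝ) := by
    intro v
    rcases Nat.eq_zero_or_pos v with h0 | h0
    · subst h0; simp
    · apply Real.log_le_log (by exact_mod_cast h0)
      push_cast
      linarith
  have ht0 : ∀ v, 0 ≤ t v := fun v =>
    intervalIntegral.integral_nonneg (hmono v) (fun u _ => hs0 u)
  have hpiece : ∀ w : ℕ, ∫ u in Real.log (w : ℝ)..Real.log ((w + H : ℕ) : ℝ), s u
      = ∑ i ∈ range H, t (w + i) := by
    intro w
    have := intervalIntegral.sum_integral_adjacent_intervals (f := s) (μ := volume)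
      (a := fun i : ℕ => Real.log ((w + i : ℕ) : ℝ)) (n := H)
      (fun k _ => hsint.intervalIntegrable)
    simp only [add_zero] at this
    rw [← this]
    rfl
  set a : ℕ := ⌈N⌉₊ with ha
  set b : ℕ := ⌊2 * N⌋₊ with hb
  have haN : N ≤ a := Nat.le_ceil _
  have haN' : (a : ℝ) < N + 1 := Nat.ceil_lt_add_one hN0.le
  have hbN : (b : ℝ) ≤ 2 * N := Nat.floor_le (by positivity)
  have hbN' : 2 * N < b + 1 := Nat.lt_floor_add_one _
  have hab : a ≤ b := by
    have : (a : ℝ) < b + 1 := by linarith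
    exact_mod_cast (by exact_mod_cast this : a < b + 1) |> Nat.lt_succ_iff.mp
  have hsumall : ∑ v ∈ Ico a (b + H + 1), t v
      = ∫ u in Real.log (a : ℝ)..Real.log ((b + H + 1 : ℕ) : ℝ), s u := by
    have := intervalIntegral.sum_integral_adjacent_intervals_Ico (f := s) (μ := volume)
      (a := fun i : ℕ => Real.log ((i : ℕ) : ℝ)) (m := a) (n := b + H + 1) (by omega)
      (fun k _ => hsint.intervalIntegrable)
    exact this
  have ha0 : (0 : ℝ) < a := by linarith
  have hlogab : Real.log (a : ℝ) ≤ Real.log ((b + H + 1 : ℕ) : ℝ) := by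
    apply Real.log_le_log ha0
    exact_mod_cast (by omega : a ≤ b + H + 1)
  have hlen : Real.log ((b + H + 1 : ℕ) : ℝ) - Real.log (a : ℝ) ≤ 2 := by
    have hp : (0 : ℝ) < ((b + H + 1 : ℕ) : ℝ) := by positivity
    rw [← Real.log_div hp.ne' ha0.ne']
    have h1 := Real.log_le_sub_one_of_pos (show 0 < ((b + H + 1 : ℕ) : ℝ) / a by positivity)
    refine h1.trans ?_
    rw [sub_le_iff_le_add, div_le_iff₀ ha0]
    push_cast
    linarith
  have htot : ∫ u in Real.log (a : ℝ)..Real.log ((b + H + 1 : ℕ) : ℝ), s u ≤ 3 / 2 * (h * e) := by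
    have hδ0 : 0 < h * e := by positivity
    have h1 : ∫ u in Real.log (a : ℝ)..Real.log ((b + H + 1 : ℕ) : ℝ), s u ≤
        ∫ u in Real.log (a : ℝ)..Real.log ((b + H + 1 : ℕ) : ℝ), ((h * e) / 2 + 1 / (2 * (h * e)) * s u ^ 2) := by
      apply intervalIntegral.integral_mono_on hlogab hsint.intervalIntegrable
      · apply IntervalIntegrable.add intervalIntegrable_const
        exact (hs2int.const_mul _).intervalIntegrable
      · intro u _
        have h2 : 0 ≤ (h * e - s u) ^ 2 := sq_nonneg _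
        have h3 : (h * e) / 2 + 1 / (2 * (h * e)) * s u ^ 2 - s u = (h * e - s u) ^ 2 / (2 * (h * e)) := by
          field_simp
          ring
        have h4 : 0 ≤ (h * e - s u) ^ 2 / (2 * (h * e)) := by positivity
        linarith
    refine h1.trans ?_
    rw [intervalIntegral.integral_add intervalIntegrable_const (hs2int.const_mul _).intervalIntegrable,
      intervalIntegral.integral_const, intervalIntegral.integral_const_mul, smul_eq_mul]
    have h2 : ∫ u in Real.log (a : ℝ)..Real.log ((b + H + 1 : ℕ) : ℝ), s u ^ 2 ≤ e ^ 2 * h ^ 2 := by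
      rw [intervalIntegral.integral_of_le hlogab]
      refine le_trans ?_ hs2
      apply setIntegral_le_integral hs2int
      exact Filter.Eventually.of_forall (fun u => by positivity)
    have h3 : 1 / (2 * (h * e)) * (∫ u in Real.log (a : ℝ)..Real.log ((b + H + 1 : ℕ) : ℝ), s u ^ 2)
        ≤ 1 / (2 * (h * e)) * (e ^ 2 * h ^ 2) := by
      apply mul_le_mul_of_nonneg_left h2 (by positivity)
    have h4 : 1 / (2 * (h * e)) * (e ^ 2 * h ^ 2) = h * e / 2 := by
      field_simp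
    have h5 : (Real.log ((b + H + 1 : ℕ) : ℝ) - Real.log (a : ℝ)) * (h * e / 2) ≤ 2 * (h * e / 2) := by
      apply mul_le_mul_of_nonneg_right hlen (by positivity)
    linarith
  have hsumw : ∑ w ∈ Icc a b, ∫ u in Real.log (w : ℝ)..Real.log ((w + H : ℕ) : ℝ), s u
      ≤ H * (3 / 2 * (h * e)) := by
    calc ∑ w ∈ Icc a b, ∫ u in Real.log (w : ℝ)..Real.log ((w + H : ℕ) : ℝ), s u
        = ∑ w ∈ Icc a b, ∑ i ∈ range H, t (w + i) := sum_congr rfl (fun w _ => hpiece w)
      _ = ∑ i ∈ range H, ∑ w ∈ Icc a b, t (w + i) := sum_comm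
      _ ≤ ∑ i ∈ range H, ∑ v ∈ Ico a (b + H + 1), t v := by
          apply sum_le_sum
          intro i hi
          rw [mem_range] at hi
          have h1 : ∑ w ∈ Icc a b, t (w + i) = ∑ v ∈ (Icc a b).image (fun w => w + i), t v := by
            rw [sum_image]
            intro x _ y _ hxy
            simpa using hxy
          rw [h1]
          apply sum_le_sum_of_subset_of_nonneg
          · intro v hv
            rw [mem_image] at hv
            obtain ⟨w, hw, rfl⟩ := hv
            rw [mem_Icc] at hw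
            rw [mem_Ico]
            omega
          · intro v _ _
            exact ht0 v
      _ = H * ∑ v ∈ Ico a (b + H + 1), t v := by
          rw [sum_const, card_range, nsmul_eq_mul]
      _ ≤ H * (3 / 2 * (h * e)) := by
          rw [hsumall]
          apply mul_le_mul_of_nonneg_left htot hH0.le
  set Er : ℝ := (H : ℝ) * (48 * θ ^ 2 * N / R) + 12 * R * θ + 48 * h ^ 2 * (1 / ((R : ℝ) - 1)) * (H / N)
    with hEr
  have hEr0 : 0 ≤ Er := by
    have : 0 < (R : ℝ) - 1 := by linarith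
    positivity
  set T : ℝ := ∑ w ∈ Icc a b, ‖∑ n ∈ Ico w (w + H), c n‖ with hT
  have hT0 : 0 ≤ T := sum_nonneg (fun _ _ => norm_nonneg _)
  have hmain : (∫ x, G θ x) * T ≤ H * (3 / 2 * (h * e)) + 2 * N * Er := by
    rw [hT, mul_sum]
    have h1 : ∀ w ∈ Icc a b, (∫ x, G θ x) * ‖∑ n ∈ Ico w (w + H), c n‖ ≤
        (∫ u in Real.log (w : ℝ)..Real.log ((w + H : ℕ) : ℝ), s u) + Er := by
      intro w hw
      rw [mem_Icc] at hw
      have hw1 : N ≤ w := haN.trans (by exact_mod_cast hw.1)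
      have hw2 : (w : ℝ) ≤ 2 * N := le_trans (by exact_mod_cast hw.2) hbN
      exact window_err c hcn h hh0 R H hR2 hH2 N hN1' (by linarith) w hw1 hw2
    refine (sum_le_sum h1).trans ?_
    rw [sum_add_distrib, sum_const, nsmul_eq_mul, Nat.card_Icc]
    have h2 : ((b + 1 - a : ℕ) : ℝ) ≤ 2 * N := by
      rw [Nat.cast_sub (by omega)]
      push_cast
      linarith
    have h3 := mul_le_mul_of_nonneg_right h2 hEr0
    linarith
  have hAge := integral_G_ge θ hθ0
  have h2T : 2 * θ * T ≤ H * (3 / 2 * (h * e)) + 2 * N * Er :=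
    le_trans (mul_le_mul_of_nonneg_right hAge hT0) hmain
  -- multiply out
  have hRm : 0 < (R : ℝ) - 1 := by linarith
  have k1 : 2 * θ * (27 / 40 * (H * N * e)) = H * (3 / 2 * (h * e)) := by
    rw [hθ, hM]
    field_simp
    ring
  have k2 : 2 * θ * (160 / 3 * (H * N * h / R)) = 2 * N * ((H : ℝ) * (48 * θ ^ 2 * N / R)) := by
    rw [hθ, hM]
    field_simp
    ring
  have k3 : 2 * θ * (12 * R * N) = 2 * N * (12 * R * θ) := by ring
  have k4 : 2 * θ * (216 / 5 * (H * N * h * (1 / ((R : ℝ) - 1)))) =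
      2 * N * (48 * h ^ 2 * (1 / ((R : ℝ) - 1)) * (H / N)) := by
    rw [hθ, hM]
    field_simp
    ring
  have k5 : 2 * θ * T ≤ 2 * θ * (27 / 40 * (H * N * e) + 160 / 3 * (H * N * h / R) + 12 * R * N
      + 216 / 5 * (H * N * h * (1 / ((R : ℝ) - 1)))) := by
    rw [mul_add, mul_add, mul_add, k1, k2, k3, k4]
    refine h2T.trans (le_of_eq ?_)
    rw [hEr]
    ring
  have k6 := le_of_mul_le_mul_left k5 (by positivity)
  refine k6.trans ?_
  have hHN : 0 < H * N := by positivity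
  have m1 : h / R ≤ ε / 400 := by
    rw [div_le_div_iff₀ (by linarith) (by norm_num)]
    have : 400 * h / ε ≤ R := by linarith
    rw [div_le_iff₀ hε] at this
    linarith
  have m2 : h * (1 / ((R : ℝ) - 1)) ≤ ε / 400 := by
    rw [mul_one_div, div_le_div_iff₀ hRm (by norm_num)]
    have : 400 * h / ε ≤ (R : ℝ) - 1 := by linarith
    rw [div_le_iff₀ hε] at this
    linarith
  have m3 : 12 * (R : ℝ) ≤ ε * H / 4 := by
    rw [div_le_iff₀ hε] at hH1
    linarith
  have n1 : 160 / 3 * (H * N * h / R) ≤ 160 / 3 * (H * N * (ε / 400)) := by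
    rw [show (H : ℝ) * N * h / R = H * N * (h / R) by ring]
    gcongr
  have n2 : 216 / 5 * (H * N * h * (1 / ((R : ℝ) - 1))) ≤ 216 / 5 * (H * N * (ε / 400)) := by
    rw [show (H : ℝ) * N * h * (1 / ((R : ℝ) - 1)) = H * N * (h * (1 / ((R : ℝ) - 1))) by ring]
    gcongr
  have n3 : 12 * R * N ≤ ε * H / 4 * N := by gcongr
  have n4 : 0 < H * N * ε := by positivity
  rw [he]
  nlinarith

end Pool.Agent.MRE
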